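import Mathlib

/-!
# Exterior conformal maps, the Bernstein-Walsh inequality
-/

open Complex Metric Set Filter Topology Polynomial MeasureTheory Bornology

namespace Pool.Agent.H203

/-- `φ` is a conformal map of the complement of `K` onto `{|w| > 1}` with inverse `ψ`, fixing
infinity, with derivative `1 / c > 0` there. -/
structure Ext (K : Set ℂ) (φ ψ : ℂ → ℂ) (c : ℝ) : Prop where
  c_pos : 0 < c
  dφ : DifferentiableOn ℂ φ Kᶜ
  dψ : DifferentiableOn ℂ ψ {w | 1 < ‖w‖}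
  mφ : ∀ z ∈ Kᶜ, 1 < ‖φ z‖
  mψ : ∀ w, 1 < ‖w‖ → ψ w ∈ Kᶜ
  ψφ : ∀ z ∈ Kᶜ, ψ (φ z) = z
  φψ : ∀ w, 1 < ‖w‖ → φ (ψ w) = w
  tφ : Tendsto (fun z => φ z / z) (cobounded ℂ) (𝓝 (1 / (c : ℂ)))
  tψ : Tendsto (fun w => ψ w / w) (cobounded ℂ) (𝓝 (c : ℂ))

/-- the function `v f(1/v)` on the unit disc -/
noncomputable def inv1 (f : ℂ → ℂ) (L : ℂ) : ℂ → ℂ := Function.update (fun v => v * f v⁻¹) 0 L

lemma inv1_zero (f : ℂ → ℂ) (L : ℂ) : inv1 f L 0 = L := by simp [inv1]

lemma inv1_ne (f : ℂ → ℂ) (L : ℂ) {v : ℂ} (hv : v ≠ 0) : inv1 f L v = v * f v⁻¹ := by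
  simp [inv1, hv]

lemma inv1_diff {f : ℂ → ℂ} {L : ℂ} (hf : DifferentiableOn ℂ f {w | 1 < ‖w‖})
    (hL : Tendsto (fun w => f w / w) (cobounded ℂ) (𝓝 L)) :
    DifferentiableOn ℂ (inv1 f L) (ball 0 1) := by
  rw [← differentiableOn_compl_singleton_and_continuousAt_iff
    (c := (0 : ℂ)) (ball_mem_nhds (0 : ℂ) one_pos)]
  constructor
  · have h1 : DifferentiableOn ℂ (fun v : ℂ => v * f v⁻¹) (ball 0 1 \ {0}) := by
      apply DifferentiableOn.mul differentiableOn_id
      apply DifferentiableOn.comp hf (t := {w : ℂ | 1 < ‖w‖})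
      · apply differentiableOn_inv.mono
        intro v hv
        exact hv.2
      · intro v hv
        have h0 : v ≠ 0 := hv.2
        have h2 : ‖v‖ < 1 := by simpa using hv.1
        simp only [mem_ofPred_eq, norm_inv]
        exact (one_lt_inv₀ (norm_pos_iff.mpr h0)).mpr h2
    apply h1.congr
    intro v hv
    exact inv1_ne f L hv.2
  · unfold inv1
    rw [continuousAt_update_same]
    have h1 := hL.comp (tendsto_inv₀_nhdsNE_zero (α := ℂ))
    refine h1.congr' ?_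
    filter_upwards [self_mem_nhdsWithin] with v hv
    simp only [Function.comp_apply, div_inv_eq_mul]
    ring

section
variable {K : Set ℂ} {φ ψ : ℂ → ℂ} {c : ℝ}

lemma Ext.diffB (h : Ext K φ ψ c) : DifferentiableOn ℂ (inv1 ψ c) (ball 0 1) := inv1_diff h.dψ h.tψ

lemma Ext.diffP (h : Ext K φ ψ c) (hK : K ⊆ closedBall 0 1) :
    DifferentiableOn ℂ (inv1 φ (1 / c)) (ball 0 1) := by
  apply inv1_diff _ h.tφ
  apply h.dφ.mono
  intro w hw hwK
  have := hK hwK
  simp only [mem_closedBall, dist_zero_right] at this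
  simp only [mem_ofPred_eq] at hw
  linarith

lemma one_lt_inv {v : ℂ} (hv : v ≠ 0) (h1 : ‖v‖ < 1) : 1 < ‖v⁻¹‖ := by
  rw [norm_inv]; exact (one_lt_inv₀ (norm_pos_iff.mpr hv)).mpr h1

lemma Ext.B_ne (h : Ext K φ ψ c) (h0 : (0 : ℂ) ∈ K) {v : ℂ} (hv : v ∈ ball (0 : ℂ) 1) : inv1 ψ c v ≠ 0 := by
  by_cases hv0 : v = 0
  · rw [hv0, inv1_zero]
    exact_mod_cast h.c_pos.ne'
  · rw [inv1_ne _ _ hv0]
    have h1 := h.mψ v⁻¹ (one_lt_inv hv0 (by simpa using hv))
    intro h2
    rcases mul_eq_zero.mp h2 with h3 | h3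
    · exact hv0 h3
    · rw [h3] at h1; exact h1 h0

lemma Ext.P_ne (h : Ext K φ ψ c) (hK : K ⊆ closedBall 0 1) {v : ℂ} (hv : v ∈ ball (0 : ℂ) 1) :
    inv1 φ (1 / c) v ≠ 0 := by
  by_cases hv0 : v = 0
  · rw [hv0, inv1_zero]
    have := h.c_pos.ne'
    simpa using this
  · rw [inv1_ne _ _ hv0]
    have h2 := one_lt_inv hv0 (by simpa using hv)
    have h1 := h.mφ v⁻¹ (fun hh => by
      have := hK hh
      simp only [mem_closedBall, dist_zero_right] at this
      linarith)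
    intro h2
    rcases mul_eq_zero.mp h2 with h3 | h3
    · exact hv0 h3
    · rw [h3] at h1; simp at h1; linarith

/-- near the unit circle the values of `ψ` are near `K` -/
lemma Ext.near (h : Ext K φ ψ c) {U : Set ℂ} (hU : IsOpen U) (hKU : K ⊆ U) :
    ∃ ρ : ℝ, 1 < ρ ∧ ∀ w : ℂ, 1 < ‖w‖ → ‖w‖ < ρ → ψ w ∈ U := by
  -- outside a large ball the norm of `φ` is at least two
  have hbig : ∃ R : ℝ, ∀ z : ℂ, R < ‖z‖ → z ∈ Kᶜ → 2 ≤ ‖φ z‖ := by
    have h1 : ∀ᶠ z in cobounded ℂ, ‖φ z / z - 1 / c‖ < 1 / (2 * c) := by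
      have := h.tφ
      rw [Metric.tendsto_nhds] at this
      have := this (1 / (2 * c)) (by have := h.c_pos; positivity)
      simpa [dist_eq_norm] using this
    rw [← comap_norm_atTop, Filter.eventually_comap] at h1
    obtain ⟨R, hR⟩ := Filter.eventually_atTop.mp h1
    refine ⟨max R (4 * c), fun z hz _ => ?_⟩
    have hz1 : R ≤ ‖z‖ := le_trans (le_max_left _ _) hz.le
    have hz2 : 4 * c < ‖z‖ := lt_of_le_of_lt (le_max_right _ _) hz
    have h2 := hR ‖z‖ hz1 z rfl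
    have hc := h.c_pos
    have h3 : 1 / c - ‖φ z / z‖ ≤ ‖φ z / z - 1 / c‖ := by
      have := norm_sub_norm_le (1 / (c : ℂ)) (φ z / z)
      rw [norm_sub_rev] at this
      have e : ‖(1 / (c : ℂ))‖ = 1 / c := by
        rw [norm_div, norm_one, Complex.norm_real, Real.norm_of_nonneg hc.le]
      rw [e] at this
      exact this
    have h4 : 1 / (2 * c) < ‖φ z / z‖ := by
      have : 1 / c = 1 / (2 * c) + 1 / (2 * c) := by field_simp; norm_num
      linarith
    rw [norm_div] at h4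
    have hzp : 0 < ‖z‖ := by linarith
    rw [lt_div_iff₀ hzp] at h4
    have : 1 / (2 * c) * ‖z‖ > 1 / (2 * c) * (4 * c) := by
      apply mul_lt_mul_of_pos_left hz2; positivity
    have e2 : 1 / (2 * c) * (4 * c) = 2 := by field_simp; norm_num
    linarith
  obtain ⟨R, hR⟩ := hbig
  have hSK : Uᶜ ⊆ Kᶜ := compl_subset_compl.mpr hKU
  have hcomp : IsCompact (Uᶜ ∩ closedBall (0 : ℂ) R) :=
    (isCompact_closedBall _ _).inter_left hU.isClosed_compl
  have hcont : ContinuousOn (fun z => ‖φ z‖) (Uᶜ ∩ closedBall (0 : ℂ) R) :=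
    (h.dφ.continuousOn.mono (inter_subset_left.trans hSK)).norm
  rcases (Uᶜ ∩ closedBall (0 : ℂ) R).eq_empty_or_nonempty with he | hne
  · refine ⟨2, by norm_num, fun w hw1 hw2 => ?_⟩
    by_contra hcon
    have hz : ψ w ∈ Kᶜ := h.mψ w hw1
    by_cases hball : ‖ψ w‖ ≤ R
    · have : ψ w ∈ Uᶜ ∩ closedBall (0 : ℂ) R := ⟨hcon, by simpa using hball⟩
      rw [he] at this
      exact this
    · have := hR (ψ w) (not_le.mp hball) hz
      rw [h.φψ w hw1] at this
      linarith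
  · obtain ⟨z0, hz0, hmin⟩ := hcomp.exists_isMinOn hne hcont
    have h1 : 1 < ‖φ z0‖ := h.mφ z0 (hSK hz0.1)
    refine ⟨min 2 ‖φ z0‖, lt_min (by norm_num) h1, fun w hw1 hw2 => ?_⟩
    by_contra hcon
    have hz : ψ w ∈ Kᶜ := h.mψ w hw1
    by_cases hball : ‖ψ w‖ ≤ R
    · have hmem : ψ w ∈ Uᶜ ∩ closedBall (0 : ℂ) R := ⟨hcon, by simpa using hball⟩
      have := hmin hmem
      simp only [mem_ofPred_eq, h.φψ w hw1] at this
      have := hw2.trans_le (min_le_right _ _)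
      linarith
    · have := hR (ψ w) (not_le.mp hball) hz
      rw [h.φψ w hw1] at this
      have := hw2.trans_le (min_le_left _ _)
      linarith

/-- **Bernstein-Walsh inequality.** -/
lemma Ext.bernstein_walsh (h : Ext K φ ψ c) (h0 : (0 : ℂ) ∈ K) {p : ℂ[X]} {m : ℕ}
    (hp : p.natDegree ≤ m) {M : ℝ} (hM : ∀ z ∈ K, ‖p.eval z‖ ≤ M) {z : ℂ} (hz : z ∈ Kᶜ) :
    ‖p.eval z‖ ≤ M * ‖φ z‖ ^ m := by
  set B := inv1 ψ c with hB
  set g : ℂ → ℂ := fun v => (p.reflect m).eval (v / B v) * (B v) ^ m with hg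
  have hM0 : 0 ≤ M := le_trans (norm_nonneg _) (hM 0 h0)
  have hdg : DifferentiableOn ℂ g (ball 0 1) := by
    have h1 : DifferentiableOn ℂ (fun v => v / B v) (ball 0 1) :=
      differentiableOn_id.div h.diffB (fun v hv => h.B_ne h0 hv)
    have h2 : DifferentiableOn ℂ (fun v => (p.reflect m).eval (v / B v)) (ball 0 1) := by
      have h3 : Differentiable ℂ (fun v => (p.reflect m).eval v) := Polynomial.differentiable _
      exact h3.comp_differentiableOn h1
    exact h2.mul (h.diffB.pow m)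
  have hgv : ∀ v : ℂ, v ≠ 0 → v ∈ ball (0 : ℂ) 1 → g v = p.eval (ψ v⁻¹) * v ^ m := by
    intro v hv hvb
    have hψ : ψ v⁻¹ ≠ 0 := by
      intro h2
      have := h.mψ v⁻¹ (one_lt_inv hv (by simpa using hvb))
      rw [h2] at this
      exact this h0
    have e1 : v / B v = (ψ v⁻¹)⁻¹ := by
      rw [hB, inv1_ne _ _ hv]
      field_simp
    have e2 : B v = v * ψ v⁻¹ := by rw [hB, inv1_ne _ _ hv]
    simp only [hg]
    rw [e1, e2, mul_pow]
    let _ : Invertible (ψ v⁻¹) := invertibleOfNonzero hψ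
    have e3 := Polynomial.eval₂_reflect_mul_pow (RingHom.id ℂ) (ψ v⁻¹) m p hp
    rw [invOf_eq_inv] at e3
    simp only [Polynomial.eval₂_id] at e3
    rw [← e3]
    ring
  -- bound
  have key : ∀ v : ℂ, v ∈ ball (0 : ℂ) 1 → ‖g v‖ ≤ M := by
    intro v hv
    apply le_of_forall_pos_le_add
    intro ε hε
    obtain ⟨ρ, hρ1, hρ⟩ := h.near (U := {z | ‖p.eval z‖ < M + ε})
      (isOpen_lt (p.continuous.norm) continuous_const) (fun z hz => by
        have := hM z hz
        simp only [mem_ofPred_eq]; linarith)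
    have hv1 : ‖v‖ < 1 := by simpa using hv
    obtain ⟨r, hr1, hr2⟩ := exists_between (max_lt hv1 (inv_lt_one_of_one_lt₀ hρ1))
    have hr0 : 0 < r := lt_of_le_of_lt (norm_nonneg v) (lt_of_le_of_lt (le_max_left _ _) hr1)
    have hsub : closedBall (0 : ℂ) r ⊆ ball 0 1 := closedBall_subset_ball hr2
    have hd : DiffContOnCl ℂ g (ball 0 r) := by
      apply DifferentiableOn.diffContOnCl
      rw [closure_ball _ hr0.ne']
      exact hdg.mono hsub
    refine Complex.norm_le_of_forall_mem_frontier_norm_le (U := ball (0 : ℂ) r) isBounded_ball hd ?_ ?_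
    · intro u hu
      rw [frontier_ball _ hr0.ne'] at hu
      have hu1 : ‖u‖ = r := by simpa using hu
      have hu0 : u ≠ 0 := by
        intro h2; rw [h2, norm_zero] at hu1; linarith
      rw [hgv u hu0 (by simpa [hu1] using hr2), norm_mul, norm_pow, hu1]
      have h3 : ‖u⁻¹‖ < ρ := by
        rw [norm_inv, hu1]
        exact inv_lt_of_inv_lt₀ (by linarith) (lt_of_le_of_lt (le_max_right _ _) hr1)
      have h4 := hρ u⁻¹ (one_lt_inv hu0 (by rw [hu1]; exact hr2)) h3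
      simp only [mem_ofPred_eq] at h4
      calc ‖p.eval (ψ u⁻¹)‖ * r ^ m ≤ (M + ε) * 1 := by
            apply mul_le_mul h4.le (pow_le_one₀ hr0.le hr2.le) (by positivity) (by linarith)
        _ = M + ε := mul_one _
    · rw [closure_ball _ hr0.ne']
      simp only [mem_closedBall, dist_zero_right]
      exact (lt_of_le_of_lt (le_max_left _ _) hr1).le
  have hφ1 := h.mφ z hz
  have hφ0 : φ z ≠ 0 := by intro h2; rw [h2, norm_zero] at hφ1; linarith
  have h5 := key (φ z)⁻¹ (by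
    simp only [mem_ball, dist_zero_right, norm_inv]
    exact inv_lt_one_of_one_lt₀ hφ1)
  rw [hgv _ (inv_ne_zero hφ0) (by
    simp only [mem_ball, dist_zero_right, norm_inv]
    exact inv_lt_one_of_one_lt₀ hφ1), inv_inv, h.ψφ z hz, norm_mul, norm_pow, norm_inv] at h5
  have h6 : (0 : ℝ) < ‖φ z‖ ^ m := by positivity
  rw [inv_pow, ← div_eq_mul_inv, div_le_iff₀ h6] at h5
  exact h5

end

end Pool.Agent.H203
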