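import Mathlib
import Pool.Agent.H203.Ext

/-!
# Test polynomials with small supremum norm
-/

open Complex Metric Set Filter Topology Polynomial MeasureTheory Bornology

namespace Pool.Agent.H203

/-- uniform convergence of Riemann sums -/
lemma riemann_uniform {K : Set ℂ} (hK : IsCompact K) {L : ℂ → ℝ → ℝ}
    (hL : ContinuousOn (Function.uncurry L) (K ×ˢ Icc 0 (2 * Real.pi))) {η : ℝ} (hη : 0 < η) :
    ∃ d : ℕ, 1 ≤ d ∧ ∀ z ∈ K, |(1 / (d : ℝ)) * ∑ l ∈ Finset.range d, L z (2 * Real.pi * l / d) -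
      (2 * Real.pi)⁻¹ * ∫ θ in (0 : ℝ)..(2 * Real.pi), L z θ| ≤ η := by
  have hpi : 0 < 2 * Real.pi := by positivity
  have hcomp : IsCompact (K ×ˢ Icc (0 : ℝ) (2 * Real.pi)) := hK.prod isCompact_Icc
  have hu := hcomp.uniformContinuousOn_of_continuous hL
  rw [Metric.uniformContinuousOn_iff] at hu
  obtain ⟨δ, hδ, hu⟩ := hu η hη
  obtain ⟨d, hd⟩ := exists_nat_gt (2 * Real.pi / δ)
  have hd0 : (0 : ℝ) < d := lt_trans (by positivity) hd
  have hd1 : 1 ≤ d := by
    have : 0 < d := by exact_mod_cast hd0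
    exact this
  refine ⟨d, hd1, fun z hz => ?_⟩
  have hstep : 2 * Real.pi / d < δ := by
    rw [div_lt_iff₀ hδ] at hd
    rw [div_lt_iff₀ hd0]; linarith
  set a : ℕ → ℝ := fun l => 2 * Real.pi * l / d with ha
  have ha0 : a 0 = 0 := by simp [ha]
  have had : a d = 2 * Real.pi := by simp only [ha]; field_simp
  have hmono : ∀ l, a l ≤ a (l + 1) := by
    intro l; simp only [ha]
    gcongr
    simp
  have hle : ∀ l, l ≤ d → 0 ≤ a l ∧ a l ≤ 2 * Real.pi := by
    intro l hl
    have : (l : ℝ) ≤ d := by exact_mod_cast hl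
    constructor
    · simp only [ha]; positivity
    · simp only [ha]; rw [div_le_iff₀ hd0]; gcongr
  have hdiff : ∀ l, a (l + 1) - a l = 2 * Real.pi / d := by
    intro l; simp only [ha]; push_cast; ring
  have hcz : ContinuousOn (L z) (Icc 0 (2 * Real.pi)) := by
    have : ContinuousOn (fun θ : ℝ => Function.uncurry L (z, θ)) (Icc 0 (2 * Real.pi)) :=
      hL.comp (by fun_prop) (fun θ hθ => ⟨hz, hθ⟩)
    exact this
  have hint : ∀ l < d, IntervalIntegrable (L z) volume (a l) (a (l + 1)) := by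
    intro l hl
    apply ContinuousOn.intervalIntegrable
    rw [uIcc_of_le (hmono l)]
    apply hcz.mono
    intro x hx
    exact ⟨(hle l hl.le).1.trans hx.1, hx.2.trans (hle (l + 1) hl).2⟩
  have hsum := intervalIntegral.sum_integral_adjacent_intervals (f := L z) (μ := volume) (a := a)
    (n := d) hint
  rw [ha0, had] at hsum
  rw [← hsum]
  have h1 : ∀ l ∈ Finset.range d, |(1 / (d : ℝ)) * L z (a l) -
      (2 * Real.pi)⁻¹ * ∫ θ in (a l)..(a (l + 1)), L z θ| ≤ η / d := by
    intro l hl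
    rw [Finset.mem_range] at hl
    have e1 : (1 / (d : ℝ)) * L z (a l) = (2 * Real.pi)⁻¹ * ∫ θ in (a l)..(a (l + 1)), L z (a l) := by
      rw [intervalIntegral.integral_const, smul_eq_mul, hdiff]
      field_simp
    rw [e1, ← mul_sub, ← intervalIntegral.integral_sub (by simp) (hint l hl), abs_mul,
      abs_of_pos (inv_pos.mpr hpi)]
    have h2 : |∫ θ in (a l)..(a (l + 1)), (L z (a l) - L z θ)| ≤ η * |a (l + 1) - a l| := by
      rw [← Real.norm_eq_abs]
      apply intervalIntegral.norm_integral_le_of_norm_le_const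
      intro θ hθ
      rw [uIoc_of_le (hmono l)] at hθ
      have h3 := hu (z, a l) ⟨hz, (hle l hl.le).1, (hle l hl.le).2⟩ (z, θ)
        ⟨hz, (hle l hl.le).1.trans hθ.1.le, hθ.2.trans (hle (l + 1) hl).2⟩ (by
          rw [Prod.dist_eq, dist_self, Real.dist_eq]
          have : |a l - θ| ≤ a (l + 1) - a l := by
            rw [abs_le]; constructor <;> linarith [hθ.1, hθ.2]
          rw [hdiff] at this
          exact max_lt hδ (this.trans_lt hstep))
      rw [Real.dist_eq] at h3
      rw [Real.norm_eq_abs]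
      exact h3.le
    rw [hdiff, abs_of_pos (show (0:ℝ) < 2 * Real.pi / d by positivity)] at h2
    calc (2 * Real.pi)⁻¹ * |∫ θ in (a l)..(a (l + 1)), (L z (a l) - L z θ)|
        ≤ (2 * Real.pi)⁻¹ * (η * (2 * Real.pi / d)) := by gcongr
      _ = η / d := by field_simp
  rw [Finset.mul_sum, Finset.mul_sum, ← Finset.sum_sub_distrib]
  calc |∑ l ∈ Finset.range d, ((1 / (d : ℝ)) * L z (a l) -
      (2 * Real.pi)⁻¹ * ∫ θ in (a l)..(a (l + 1)), L z θ)| ≤ ∑ l ∈ Finset.range d, |(1 / (d : ℝ)) * L z (a l) -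
      (2 * Real.pi)⁻¹ * ∫ θ in (a l)..(a (l + 1)), L z θ| := Finset.abs_sum_le_sum_abs _ _
    _ ≤ ∑ l ∈ Finset.range d, η / d := Finset.sum_le_sum h1
    _ = η := by
      rw [Finset.sum_const, Finset.card_range, nsmul_eq_mul]
      field_simp

/-- For every `ε > 0` there is a monic polynomial of some degree `d ≥ 1` which is at most
`(c (1 + ε))^d` on `K`. -/
lemma Ext.test {K : Set ℂ} {φ ψ : ℂ → ℂ} {c : ℝ} (h : Ext K φ ψ c) (hK : IsCompact K)
    (h0 : (0 : ℂ) ∈ K) {ε : ℝ} (hε : 0 < ε) :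
    ∃ d : ℕ, 1 ≤ d ∧ ∃ F : ℂ[X], F.Monic ∧ F.natDegree = d ∧
      ∀ z ∈ K, ‖F.eval z‖ ≤ (c * (1 + ε)) ^ d := by
  have hc := h.c_pos
  set ρ : ℝ := 1 + ε / 2 with hρ
  have hρ1 : 1 < ρ := by rw [hρ]; linarith
  set r : ℝ := ρ⁻¹ with hr
  have hr0 : 0 < r := by positivity
  have hr1 : r < 1 := inv_lt_one_of_one_lt₀ hρ1
  set η : ℝ := Real.log ((1 + ε) / ρ) with hη
  have hη0 : 0 < η := by
    apply Real.log_pos
    rw [lt_div_iff₀ (by linarith)]; rw [hρ]; linarith
  set B := inv1 ψ c with hB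
  have hsub : closedBall (0 : ℂ) r ⊆ ball 0 1 := closedBall_subset_ball hr1
  have hBc : ContinuousOn B (closedBall 0 r) := h.diffB.continuousOn.mono hsub
  have hbne : ∀ z ∈ K, ∀ v ∈ ball (0 : ℂ) 1, B v - z * v ≠ 0 := by
    intro z hz v hv
    by_cases hv0 : v = 0
    · rw [hv0, hB, inv1_zero]
      simp only [mul_zero, sub_zero]
      exact_mod_cast hc.ne'
    · rw [hB, inv1_ne _ _ hv0]
      intro h2
      have h3 : ψ v⁻¹ = z := by
        have : v * (ψ v⁻¹ - z) = 0 := by linear_combination h2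
        rcases mul_eq_zero.mp this with h4 | h4
        · exact absurd h4 hv0
        · exact sub_eq_zero.mp h4
      have := h.mψ v⁻¹ (one_lt_inv hv0 (by simpa using hv))
      rw [h3] at this
      exact this hz
  have hcirc : ∀ θ : ℝ, circleMap 0 r θ ∈ closedBall (0 : ℂ) r := by
    intro θ
    simp [circleMap, abs_of_pos hr0]
  have hnorm : ∀ θ : ℝ, ‖circleMap 0 r θ‖ = r := by
    intro θ
    simp [circleMap, abs_of_pos hr0]
  obtain ⟨d, hd1, hd⟩ := riemann_uniform (K := K) hK
    (L := fun z θ => Real.log ‖B (circleMap 0 r θ) - z * circleMap 0 r θ‖) (by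
      have h1 : Continuous fun x : ℂ × ℝ => circleMap 0 r x.2 := by
        exact (continuous_circleMap 0 r).comp continuous_snd
      have h2 : ContinuousOn (fun x : ℂ × ℝ => B (circleMap 0 r x.2) - x.1 * circleMap 0 r x.2)
          (K ×ˢ Icc 0 (2 * Real.pi)) := by
        apply ContinuousOn.sub
        · exact hBc.comp h1.continuousOn (fun x _ => hcirc x.2)
        · exact (continuous_fst.mul h1).continuousOn
      apply h2.norm.log
      intro x hx
      exact norm_ne_zero_iff.mpr (hbne x.1 hx.1 _ (hsub (hcirc x.2)))) hη0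
  have hd0 : (0 : ℝ) < d := by exact_mod_cast hd1
  set v : ℕ → ℂ := fun l => circleMap 0 r (2 * Real.pi * l / d) with hv
  refine ⟨d, hd1, ∏ l ∈ Finset.range d, (X - C (ψ (v l)⁻¹)), monic_prod_of_monic _ _ (fun l _ => monic_X_sub_C _), ?_, ?_⟩
  · rw [natDegree_prod_of_monic _ _ (fun l _ => monic_X_sub_C _)]
    simp
  · intro z hz
    have hav : (2 * Real.pi)⁻¹ * ∫ θ in (0 : ℝ)..(2 * Real.pi), Real.log ‖B (circleMap 0 r θ) - z * circleMap 0 r θ‖ = Real.log c := by
      have han : AnalyticOnNhd ℂ (fun v => B v - z * v) (closedBall 0 |r|) := by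
        rw [abs_of_pos hr0]
        have : DifferentiableOn ℂ (fun v => B v - z * v) (ball 0 1) :=
          h.diffB.sub ((differentiableOn_const z).mul differentiableOn_id)
        exact (this.analyticOnNhd isOpen_ball).mono hsub
      have := AnalyticOnNhd.circleAverage_log_norm_of_ne_zero han (fun u hu => by
        rw [abs_of_pos hr0] at hu
        exact hbne z hz u (hsub hu))
      rw [Real.circleAverage_def, smul_eq_mul] at this
      rw [this, hB, inv1_zero, mul_zero, sub_zero, Complex.norm_real, Real.norm_of_nonneg hc.le]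
    have h1 := hd z hz
    rw [hav] at h1
    have h2 := (abs_le.mp h1).2
    have h3 : ∑ l ∈ Finset.range d, Real.log ‖B (v l) - z * v l‖ ≤ d * (Real.log c + η) := by
      have : (1 / (d : ℝ)) * ∑ l ∈ Finset.range d, Real.log ‖B (v l) - z * v l‖ ≤ Real.log c + η := by
        linarith
      rw [one_div, inv_mul_le_iff₀ hd0] at this
      exact this
    have hvne : ∀ l, v l ≠ 0 := by
      intro l h4
      have h5 : ‖v l‖ = r := hnorm (2 * Real.pi * l / d)
      rw [h4, norm_zero] at h5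
      linarith
    have h4 : ∀ l, ‖z - ψ (v l)⁻¹‖ = Real.exp (Real.log ‖B (v l) - z * v l‖) * ρ := by
      intro l
      have hne := hbne z hz (v l) (hsub (hcirc _))
      rw [Real.exp_log (norm_pos_iff.mpr hne), hB, inv1_ne _ _ (hvne l)]
      have e : v l * ψ (v l)⁻¹ - z * v l = (-(v l)) * (z - ψ (v l)⁻¹) := by ring
      have hn : ‖v l‖ = r := hnorm _
      rw [e, norm_mul, norm_neg, hn, hr]
      field_simp
    rw [eval_prod, norm_prod]
    simp only [eval_sub, eval_X, eval_C]
    calc ∏ l ∈ Finset.range d, ‖z - ψ (v l)⁻¹‖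
        = ∏ l ∈ Finset.range d, (Real.exp (Real.log ‖B (v l) - z * v l‖) * ρ) :=
          Finset.prod_congr rfl (fun l _ => h4 l)
      _ = Real.exp (∑ l ∈ Finset.range d, Real.log ‖B (v l) - z * v l‖) * ρ ^ d := by
          rw [Finset.prod_mul_distrib, Real.exp_sum, Finset.prod_const, Finset.card_range]
      _ ≤ Real.exp (d * (Real.log c + η)) * ρ ^ d := by
          gcongr
      _ = (c * (1 + ε)) ^ d := by
          rw [Real.exp_nat_mul, Real.exp_add, Real.exp_log hc, hη, Real.exp_log (by positivity), ← mul_pow]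
          congr 1
          field_simp

end Pool.Agent.H203
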