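import Mathlib
import Pool.Agent.H203.TestPoly

/-!
# Bounds for orthonormal polynomials on a bounded open set
-/

open Complex Metric Set Filter Topology Polynomial MeasureTheory Bornology

namespace Pool.Agent.H203

lemma integral_ball_pow {δ : ℝ} (k : ℕ) (hk : k ≠ 0) : ∫ w in ball (0 : ℂ) δ, w ^ k = 0 := by
  have hkπ : ((k : ℂ)) ≠ 0 := by exact_mod_cast hk
  set θ : ℝ := Real.pi / k with hθ
  set u : Circle := Circle.exp θ with hu
  have huk : (u : ℂ) ^ k = -1 := by
    rw [hu, Circle.coe_exp, ← Complex.exp_nat_mul]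
    have : (k : ℂ) * (θ * I) = Real.pi * I := by
      rw [hθ]; push_cast; field_simp
    rw [this, Complex.exp_pi_mul_I]
  have hmp : MeasurePreserving (rotation u : ℂ ≃ₗᵢ[ℝ] ℂ) volume volume :=
    LinearIsometryEquiv.measurePreserving _
  have h1 := hmp.setIntegral_preimage_emb (rotation u).toHomeomorph.measurableEmbedding
    (fun w : ℂ => w ^ k) (ball (0 : ℂ) δ)
  have h2 : (rotation u : ℂ → ℂ) ⁻¹' ball (0 : ℂ) δ = ball (0 : ℂ) δ := by
    ext w
    simp only [mem_preimage, mem_ball_zero_iff, LinearIsometryEquiv.norm_map]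
  rw [h2] at h1
  have h3 : ∫ w in ball (0 : ℂ) δ, (rotation u w) ^ k = - ∫ w in ball (0 : ℂ) δ, w ^ k := by
    rw [← integral_neg]
    refine integral_congr_ae (Filter.Eventually.of_forall fun w => ?_)
    simp only [rotation_apply, mul_pow, huk]
    ring
  rw [h3] at h1
  have h4 : (2 : ℂ) * ∫ w in ball (0 : ℂ) δ, w ^ k = 0 := by linear_combination -h1
  rcases mul_eq_zero.mp h4 with h5 | h5
  · norm_num at h5
  · exact h5

lemma poly_integrableOn_ball (Q : ℂ[X]) (z : ℂ) (δ : ℝ) : IntegrableOn (fun w => Q.eval w) (ball z δ) :=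
  (Q.continuous.continuousOn.integrableOn_compact (isCompact_closedBall z δ)).mono_set ball_subset_closedBall

lemma integral_ball_poly (Q : ℂ[X]) (δ : ℝ) :
    ∫ w in ball (0 : ℂ) δ, Q.eval w = (volume (ball (0 : ℂ) δ)).toReal * Q.eval 0 := by
  have h1 : ∀ w : ℂ, Q.eval w = ∑ i ∈ Finset.range (Q.natDegree + 1), Q.coeff i * w ^ i :=
    fun w => eval_eq_sum_range _
  simp_rw [h1]
  rw [integral_finsetSum]
  · rw [Finset.sum_eq_single 0, Finset.sum_eq_single 0]
    · simp [Measure.real]
    · intro i _ hi; simp [hi]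
    · intro h; simp at h
    · intro i _ hi
      rw [integral_const_mul, integral_ball_pow i hi, mul_zero]
    · intro h; simp at h
  · intro i _
    exact ((continuous_const.mul (continuous_pow i)).continuousOn.integrableOn_compact
      (isCompact_closedBall (0 : ℂ) δ)).mono_set ball_subset_closedBall

/-- mean value inequality for the square of the modulus -/
lemma local_bound {G : Set ℂ} (hGb : IsBounded G) (P : ℂ[X]) {z : ℂ} {δ : ℝ}
    (hsub : ball z δ ⊆ G) :
    (volume (ball (0 : ℂ) δ)).toReal * ‖P.eval z‖ ^ 2 ≤ ∫ w in G, ‖P.eval w‖ ^ 2 := by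
  set Q : ℂ[X] := (P ^ 2).comp (X + C z) with hQ
  have h1 := integral_ball_poly Q δ
  have hQ0 : Q.eval 0 = (P.eval z) ^ 2 := by simp [hQ]
  have hQw : ∀ w, Q.eval w = (P.eval (w + z)) ^ 2 := by intro w; simp [hQ]
  have h2 : ‖∫ w in ball (0 : ℂ) δ, Q.eval w‖ ≤ ∫ w in ball (0 : ℂ) δ, ‖P.eval (w + z)‖ ^ 2 := by
    refine (norm_integral_le_integral_norm _).trans (le_of_eq ?_)
    refine integral_congr_ae (Filter.Eventually.of_forall fun w => ?_)
    simp only [hQw, norm_pow]
  have h3 : ∫ w in ball (0 : ℂ) δ, ‖P.eval (w + z)‖ ^ 2 = ∫ w in ball z δ, ‖P.eval w‖ ^ 2 := by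
    have hmp : MeasurePreserving (fun w : ℂ => w + z) volume volume := measurePreserving_add_right _ z
    have h4 := hmp.setIntegral_preimage_emb (MeasurableEquiv.addRight z).measurableEmbedding
      (fun w : ℂ => ‖P.eval w‖ ^ 2) (ball z δ)
    have h5 : (fun w : ℂ => w + z) ⁻¹' ball z δ = ball (0 : ℂ) δ := by
      ext w
      simp [mem_ball, dist_eq_norm]
    rw [h5] at h4
    exact h4
  have hcont : Continuous fun w => ‖P.eval w‖ ^ 2 := by
    have := P.continuous
    fun_prop
  have hint : IntegrableOn (fun w => ‖P.eval w‖ ^ 2) G := by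
    obtain ⟨R, hR⟩ := hGb.subset_closedBall (0 : ℂ)
    exact (hcont.continuousOn.integrableOn_compact (isCompact_closedBall (0 : ℂ) R)).mono_set hR
  have h6 : ∫ w in ball z δ, ‖P.eval w‖ ^ 2 ≤ ∫ w in G, ‖P.eval w‖ ^ 2 :=
    setIntegral_mono_set hint (Filter.Eventually.of_forall fun w => by positivity)
      (LE.le.eventuallyLE hsub)
  rw [h1, hQ0, norm_mul, norm_pow] at h2
  have h7 : ‖((volume (ball (0 : ℂ) δ)).toReal : ℂ)‖ = (volume (ball (0 : ℂ) δ)).toReal := by
    rw [Complex.norm_real, Real.norm_of_nonneg ENNReal.toReal_nonneg]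
  rw [h7] at h2
  linarith [h3 ▸ h2]

/-- An orthonormal system of polynomials on `G`. -/
structure IsONP (G : Set ℂ) (p : ℕ → ℂ[X]) : Prop where
  natDegree_eq : ∀ m, (p m).natDegree = m
  orthonormal : ∀ m l, ∫ z in G, (p m).eval z * (starRingEnd ℂ) ((p l).eval z) = if m = l then 1 else 0

section
variable {G : Set ℂ} {p : ℕ → ℂ[X]}

lemma poly_integrableOn (hGb : IsBounded G) (P Q : ℂ[X]) :
    IntegrableOn (fun z => P.eval z * (starRingEnd ℂ) (Q.eval z)) G := by
  obtain ⟨R, hR⟩ := hGb.subset_closedBall (0 : ℂ)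
  have h1 := P.continuous
  have h2 := Q.continuous
  exact ((h1.mul (Complex.continuous_conj.comp h2)).continuousOn.integrableOn_compact
    (isCompact_closedBall (0 : ℂ) R)).mono_set hR

lemma IsONP.ne_zero (h : IsONP G p) (m : ℕ) : p m ≠ 0 := by
  intro h0
  have := h.orthonormal m m
  rw [h0] at this
  simp at this

lemma IsONP.orth (h : IsONP G p) (hGb : IsBounded G) (m : ℕ) :
    ∀ n : ℕ, n ≤ m → ∀ R : ℂ[X], R.degree < n →
      ∫ z in G, R.eval z * (starRingEnd ℂ) ((p m).eval z) = 0 := by
  intro n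
  induction n with
  | zero =>
    intro _ R hR
    have : R = 0 := by
      rw [← degree_eq_bot]
      exact Nat.WithBot.lt_zero_iff.mp (by simpa using hR)
    simp [this]
  | succ n ih =>
    intro hn R hR
    have hlead : (p n).coeff n ≠ 0 := by
      have h1 := h.ne_zero n
      rw [← leadingCoeff_ne_zero] at h1
      rwa [leadingCoeff, h.natDegree_eq] at h1
    set a : ℂ := R.coeff n / (p n).coeff n with ha
    have e : R = (R - C a * p n) + C a * p n := by ring
    have hd : (R - C a * p n).degree < (n : WithBot ℕ) := by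
      rw [degree_lt_iff_coeff_zero]
      intro i hi
      rw [coeff_sub, coeff_C_mul]
      rcases eq_or_lt_of_le hi with h1 | h1
      · rw [← h1, ha]; field_simp; ring
      · rw [coeff_eq_zero_of_natDegree_lt (p := p n) (by rw [h.natDegree_eq]; exact h1), mul_zero, sub_zero]
        exact (degree_lt_iff_coeff_zero _ _).mp hR i h1
    have h2 := ih (by omega) _ hd
    have h3 := h.orthonormal n m
    rw [if_neg (by omega)] at h3
    have h4 : ∀ z, R.eval z * (starRingEnd ℂ) ((p m).eval z) =
        (R - C a * p n).eval z * (starRingEnd ℂ) ((p m).eval z) +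
          a * ((p n).eval z * (starRingEnd ℂ) ((p m).eval z)) := by
      intro z
      simp only [eval_sub, eval_mul, eval_C]
      ring
    simp_rw [h4]
    rw [integral_add (poly_integrableOn hGb _ _) ((poly_integrableOn hGb _ _).const_mul a), h2,
      integral_const_mul, h3, mul_zero, add_zero]

lemma IsONP.norm_sq (h : IsONP G p) (m : ℕ) : ∫ z in G, ‖(p m).eval z‖ ^ 2 = 1 := by
  have h1 := h.orthonormal m m
  rw [if_pos rfl] at h1
  have h2 : ∫ z in G, (p m).eval z * (starRingEnd ℂ) ((p m).eval z) =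
      ((∫ z in G, ‖(p m).eval z‖ ^ 2 : ℝ) : ℂ) := by
    rw [← integral_complex_ofReal]
    refine integral_congr_ae (Filter.Eventually.of_forall fun z => ?_)
    simp only
    rw [Complex.mul_conj, Complex.normSq_eq_norm_sq]
  rw [h2] at h1
  exact_mod_cast h1

/-- the leading coefficient is large: extremality of the orthogonal polynomials -/
lemma IsONP.lead (h : IsONP G p) (hGb : IsBounded G) (hGm : MeasurableSet G) {F : ℂ[X]}
    (hF : F.Monic) {m : ℕ} (hFm : F.natDegree = m) {S : ℝ} (hS : 0 < S) (hFS : ∀ z ∈ G, ‖F.eval z‖ ≤ S) :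
    ‖((p m).coeff m)‖⁻¹ ≤ S * ((volume G).toReal + 1) := by
  have hlead : (p m).coeff m ≠ 0 := by
    have h1 := h.ne_zero m
    rw [← leadingCoeff_ne_zero] at h1
    rwa [leadingCoeff, h.natDegree_eq] at h1
  set a : ℂ := ((p m).coeff m)⁻¹ with ha
  have hd : (F - C a * p m).degree < (m : WithBot ℕ) := by
    rw [degree_lt_iff_coeff_zero]
    intro i hi
    rw [coeff_sub, coeff_C_mul]
    rcases eq_or_lt_of_le hi with h1 | h1
    · rw [← h1, ha, inv_mul_cancel₀ hlead]
      have := hF.coeff_natDegree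
      rw [hFm] at this
      rw [this, sub_self]
    · rw [coeff_eq_zero_of_natDegree_lt (p := p m) (by rw [h.natDegree_eq]; exact h1),
        coeff_eq_zero_of_natDegree_lt (p := F) (by rw [hFm]; exact h1), mul_zero, sub_zero]
  have h2 := h.orth hGb m m le_rfl _ hd
  have h3 := h.orthonormal m m
  rw [if_pos rfl] at h3
  have h4 : ∫ z in G, F.eval z * (starRingEnd ℂ) ((p m).eval z) = a := by
    have h5 : ∀ z, F.eval z * (starRingEnd ℂ) ((p m).eval z) =
        (F - C a * p m).eval z * (starRingEnd ℂ) ((p m).eval z) +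
          a * ((p m).eval z * (starRingEnd ℂ) ((p m).eval z)) := by
      intro z
      simp only [eval_sub, eval_mul, eval_C]
      ring
    simp_rw [h5]
    rw [integral_add (poly_integrableOn hGb _ _) ((poly_integrableOn hGb _ _).const_mul a), h2,
      integral_const_mul, h3, mul_one, zero_add]
  have hfin : volume G ≠ ⊤ := hGb.measure_lt_top.ne
  have hint : IntegrableOn (fun z => ‖(p m).eval z‖ ^ 2) G := by
    obtain ⟨R, hR⟩ := hGb.subset_closedBall (0 : ℂ)
    have hcont : Continuous fun w => ‖(p m).eval w‖ ^ 2 := by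
      have := (p m).continuous
      fun_prop
    exact (hcont.continuousOn.integrableOn_compact (isCompact_closedBall (0 : ℂ) R)).mono_set hR
  have hint1 : IntegrableOn (fun _ : ℂ => (1 : ℝ)) G := integrableOn_const hfin
  have h6 : ‖a‖ ≤ ∫ z in G, S * (1 + ‖(p m).eval z‖ ^ 2) := by
    rw [← h4]
    refine (norm_integral_le_integral_norm _).trans ?_
    apply setIntegral_mono_on (poly_integrableOn hGb _ _).norm ((hint1.add hint).const_mul S) hGm
    intro z hz
    rw [norm_mul, RCLike.norm_conj]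
    have h7 := hFS z hz
    have h8 : ‖(p m).eval z‖ ≤ 1 + ‖(p m).eval z‖ ^ 2 := by nlinarith [sq_nonneg (‖(p m).eval z‖ - 1 / 2)]
    exact mul_le_mul h7 h8 (norm_nonneg _) hS.le
  rw [integral_const_mul, integral_add hint1 hint, h.norm_sq m] at h6
  rw [ha, norm_inv] at h6
  refine h6.trans (le_of_eq ?_)
  simp [Measure.real]

end

end Pool.Agent.H203
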