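import Mathlib
import Pool.Agent.H203.OrthBound

/-!
# Asymptotic upper bound for orthonormal polynomials outside the closed unit disc
-/

open Complex Metric Set Filter Topology Polynomial MeasureTheory Bornology

namespace Pool.Agent.H203

section
variable {G K : Set ℂ} {φ ψ : ℂ → ℂ} {c : ℝ} {p : ℕ → ℂ[X]}

/-- comparison of `Φ(sv)/s` with `Φ(v)` for `s` near `1` -/
lemma Ext.shrink (h : Ext K φ ψ c) (hK1 : K ⊆ closedBall 0 1) {r ε : ℝ} (hr0 : 0 < r) (hr : r < 1)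
    (hε : 0 < ε) : ∃ s : ℝ, 0 < s ∧ s < 1 ∧ ∀ v ∈ closedBall (0 : ℂ) r,
      ‖inv1 φ (1 / c) (s * v)‖ / s ≤ (1 + ε) ^ 2 * ‖inv1 φ (1 / c) v‖ := by
  set Φ := inv1 φ (1 / c) with hΦ
  have hsub : closedBall (0 : ℂ) r ⊆ ball 0 1 := closedBall_subset_ball hr
  have hcont : ContinuousOn Φ (closedBall 0 r) := (h.diffP hK1).continuousOn.mono hsub
  have hcomp : IsCompact (closedBall (0 : ℂ) r) := isCompact_closedBall _ _
  obtain ⟨v0, hv0, hmin⟩ := hcomp.exists_isMinOn ⟨0, by simp [hr0.le]⟩ hcont.norm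
  have hμ : 0 < ‖Φ v0‖ := norm_pos_iff.mpr (h.P_ne hK1 (hsub hv0))
  have hu := hcomp.uniformContinuousOn_of_continuous hcont
  rw [Metric.uniformContinuousOn_iff] at hu
  obtain ⟨δ, hδ, hu⟩ := hu (ε * ‖Φ v0‖) (by positivity)
  set s : ℝ := max (1 - δ / 2) (1 + ε)⁻¹ with hs
  have hs0 : 0 < s := lt_of_lt_of_le (by positivity) (le_max_right _ _)
  have hs1 : s < 1 := max_lt (by linarith) (inv_lt_one_of_one_lt₀ (by linarith))
  refine ⟨s, hs0, hs1, fun v hv => ?_⟩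
  have hvn : ‖v‖ ≤ r := by simpa using hv
  have h1 : (s : ℂ) * v ∈ closedBall (0 : ℂ) r := by
    simp only [mem_closedBall, dist_zero_right, norm_mul, Complex.norm_real, Real.norm_of_nonneg hs0.le]
    nlinarith [norm_nonneg v]
  have h2 : dist ((s : ℂ) * v) v < δ := by
    rw [dist_eq_norm]
    have e : (s : ℂ) * v - v = ((s - 1 : ℝ) : ℂ) * v := by push_cast; ring
    rw [e, norm_mul, Complex.norm_real, Real.norm_eq_abs, abs_of_nonpos (by linarith)]
    have h3 : 1 - δ / 2 ≤ s := le_max_left _ _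
    have h4 : -(s - 1) * ‖v‖ ≤ (δ / 2) * 1 := by
      apply mul_le_mul (by linarith) (by linarith) (norm_nonneg _) (by linarith)
    linarith
  have h3 := hu _ h1 v hv h2
  rw [dist_eq_norm] at h3
  have h4 : ‖Φ (s * v)‖ ≤ ‖Φ v‖ + ε * ‖Φ v0‖ := by
    have := norm_sub_norm_le (Φ (s * v)) (Φ v)
    linarith
  have h5 : ‖Φ v0‖ ≤ ‖Φ v‖ := hmin hv
  have h6 : ‖Φ (s * v)‖ ≤ (1 + ε) * ‖Φ v‖ := by nlinarith
  have h7 : s⁻¹ ≤ 1 + ε := by
    have : (1 + ε)⁻¹ ≤ s := le_max_right _ _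
    exact inv_le_of_inv_le₀ (by linarith) this
  rw [div_eq_mul_inv]
  calc ‖Φ (s * v)‖ * s⁻¹ ≤ ((1 + ε) * ‖Φ v‖) * (1 + ε) := by
        apply mul_le_mul h6 h7 (by positivity) (by positivity)
    _ = (1 + ε) ^ 2 * ‖Φ v‖ := by ring

/-- bound for the leading coefficients -/
lemma Ext.lead_bound (h : Ext K φ ψ c) (hK : IsCompact K) (hK1 : K ⊆ closedBall 0 1)
    (h0 : (0 : ℂ) ∈ K) (hGK : G ⊆ K) (hGo : IsOpen G) (hp : IsONP G p) {ε : ℝ} (hε : 0 < ε) :
    ∃ C : ℝ, 0 < C ∧ ∀ m, ‖((p m).coeff m)‖⁻¹ ≤ C * (c * (1 + ε)) ^ m := by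
  obtain ⟨d, hd1, F, hF, hFd, hFK⟩ := h.test hK h0 hε
  have hc := h.c_pos
  set b : ℝ := c * (1 + ε) with hb
  have hb0 : 0 < b := by positivity
  have hGb : IsBounded G := hK.isBounded.subset hGK
  set V : ℝ := (volume G).toReal + 1 with hV
  have hV0 : 0 < V := by
    have : 0 ≤ (volume G).toReal := ENNReal.toReal_nonneg
    rw [hV]; linarith
  set C' : ℝ := (max 1 b⁻¹) ^ d with hC'
  have hC0 : 0 < C' := by positivity
  refine ⟨C' * V, by positivity, fun m => ?_⟩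
  set q := m / d with hq
  set t := m % d with ht
  have hm : d * q + t = m := Nat.div_add_mod m d
  have htd : t ≤ d := (Nat.mod_lt _ (by omega)).le
  have hmonic : (F ^ q * X ^ t).Monic := (hF.pow q).mul (monic_X_pow t)
  have hdeg : (F ^ q * X ^ t).natDegree = m := by
    rw [(hF.pow q).natDegree_mul (monic_X_pow t), hF.natDegree_pow, natDegree_X_pow, hFd, ← hm]
    ring
  have hS : ∀ z ∈ G, ‖(F ^ q * X ^ t).eval z‖ ≤ b ^ (d * q) := by
    intro z hz
    have hz1 : ‖z‖ ≤ 1 := by simpa using hK1 (hGK hz)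
    rw [eval_mul, eval_pow, eval_pow, eval_X, norm_mul, norm_pow, norm_pow, pow_mul]
    calc ‖F.eval z‖ ^ q * ‖z‖ ^ t ≤ (b ^ d) ^ q * 1 := by
          apply mul_le_mul
          · exact pow_le_pow_left₀ (norm_nonneg _) (hFK z (hGK hz)) q
          · exact pow_le_one₀ (norm_nonneg _) hz1
          · positivity
          · positivity
      _ = (b ^ d) ^ q := mul_one _
  have h1 := hp.lead hGb hGo.measurableSet hmonic hdeg (S := b ^ (d * q)) (by positivity) hS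
  refine h1.trans ?_
  have h2 : b ^ (d * q) ≤ C' * b ^ m := by
    have e : b ^ m = b ^ (d * q) * b ^ t := by rw [← pow_add, hm]
    rw [e]
    have h3 : 1 ≤ C' * b ^ t := by
      have h4 : (max 1 b⁻¹) ^ t ≤ C' := by
        rw [hC']; exact pow_le_pow_right₀ (le_max_left _ _) htd
      have h5 : 1 ≤ (max 1 b⁻¹) ^ t * b ^ t := by
        rw [← mul_pow]
        apply one_le_pow₀
        calc (1 : ℝ) = b⁻¹ * b := (inv_mul_cancel₀ hb0.ne').symm
          _ ≤ max 1 b⁻¹ * b := by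
            apply mul_le_mul_of_nonneg_right (le_max_right _ _) hb0.le
      calc (1 : ℝ) ≤ (max 1 b⁻¹) ^ t * b ^ t := h5
        _ ≤ C' * b ^ t := by
          apply mul_le_mul_of_nonneg_right h4; positivity
    calc b ^ (d * q) = b ^ (d * q) * 1 := (mul_one _).symm
      _ ≤ b ^ (d * q) * (C' * b ^ t) := by
        apply mul_le_mul_of_nonneg_left h3; positivity
      _ = C' * (b ^ (d * q) * b ^ t) := by ring
  calc b ^ (d * q) * V ≤ (C' * b ^ m) * V := by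
        apply mul_le_mul_of_nonneg_right h2 hV0.le
    _ = C' * V * b ^ m := by ring

/-- the orthonormal polynomials are bounded on the shrunken sets -/
lemma inner_bound (hK : IsCompact K) (hGK : G ⊆ K) (hGo : IsOpen G) (hp : IsONP G p) {s : ℝ}
    (hstar : ∀ z ∈ K, (s : ℂ) * z ∈ G) :
    ∃ C : ℝ, 0 < C ∧ ∀ m, ∀ z ∈ K, ‖(p m).eval (s * z)‖ ≤ C := by
  have hGb : IsBounded G := hK.isBounded.subset hGK
  have hcomp : IsCompact ((fun z : ℂ => (s : ℂ) * z) '' K) := hK.image (by fun_prop)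
  obtain ⟨δ, hδ, hsub⟩ := hcomp.exists_thickening_subset_open hGo (by
    rintro _ ⟨z, hz, rfl⟩; exact hstar z hz)
  set V : ℝ := (volume (ball (0 : ℂ) δ)).toReal with hV
  have hV0 : 0 < V := by
    rw [hV]
    exact ENNReal.toReal_pos (measure_ball_pos _ _ hδ).ne' measure_ball_lt_top.ne
  refine ⟨1 + V⁻¹, by positivity, fun m z hz => ?_⟩
  have hb : ball ((s : ℂ) * z) δ ⊆ G := by
    refine Subset.trans ?_ hsub
    exact ball_subset_thickening (mem_image_of_mem _ hz) δ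
  have h1 := local_bound hGb (p m) hb
  rw [hp.norm_sq m, ← hV] at h1
  have h2 : ‖(p m).eval (s * z)‖ ^ 2 ≤ V⁻¹ := by
    rw [inv_eq_one_div, le_div_iff₀ hV0]; linarith
  have h3 : 0 < V⁻¹ := by positivity
  nlinarith [sq_nonneg (‖(p m).eval (s * z)‖ - 1), norm_nonneg ((p m).eval (s * z))]

theorem Ext.asymp (h : Ext K φ ψ c) (hK : IsCompact K) (hK1 : K ⊆ closedBall 0 1)
    (h0 : (0 : ℂ) ∈ K) (hGK : G ⊆ K) (hGo : IsOpen G) (hp : IsONP G p)
    (hstar : ∀ s : ℝ, 0 < s → s < 1 → ∀ z ∈ K, (s : ℂ) * z ∈ G) {η r : ℝ} (hη : 0 < η)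
    (hr0 : 0 < r) (hr : r < 1) :
    ∀ᶠ m : ℕ in atTop, ∀ v ∈ closedBall (0 : ℂ) r, v ≠ 0 →
      ‖(p m).eval v⁻¹ * v ^ m / (p m).coeff m‖ ≤
        Real.exp (η * m) * ‖(c : ℂ) * inv1 φ (1 / c) v‖ ^ m := by
  set ε : ℝ := Real.exp (η / 4) - 1 with hε
  have hε0 : 0 < ε := by
    have : 0 < η / 4 := by linarith
    have := Real.add_one_lt_exp this.ne'
    rw [hε]; linarith
  have hε1 : 1 + ε = Real.exp (η / 4) := by rw [hε]; ring
  obtain ⟨s, hs0, hs1, hs⟩ := h.shrink hK1 hr0 hr hε0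
  obtain ⟨C1, hC1, hlead⟩ := h.lead_bound hK hK1 h0 hGK hGo hp hε0
  obtain ⟨C2, hC2, hin⟩ := inner_bound hK hGK hGo hp (hstar s hs0 hs1)
  have hc := h.c_pos
  have hlim : Tendsto (fun m : ℕ => Real.exp (η / 4 * m)) atTop atTop := by
    apply Real.tendsto_exp_atTop.comp
    exact tendsto_natCast_atTop_atTop.const_mul_atTop (by linarith)
  filter_upwards [hlim.eventually_ge_atTop (C1 * C2)] with m hm v hv hv0
  have hvr : ‖v‖ ≤ r := by simpa using hv
  have hvp : 0 < ‖v‖ := norm_pos_iff.mpr hv0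
  -- the Bernstein-Walsh inequality for `p m (s z)`
  set q : ℂ[X] := (p m).comp (C (s : ℂ) * X) with hq
  have hqd : q.natDegree ≤ m := by
    rw [hq, natDegree_comp, hp.natDegree_eq]
    calc m * (C (s : ℂ) * X).natDegree ≤ m * 1 := by
          apply Nat.mul_le_mul_left
          exact (natDegree_C_mul_le _ _).trans natDegree_X_le
      _ = m := mul_one _
  have hqe : ∀ z, q.eval z = (p m).eval (s * z) := by intro z; simp [hq]
  set z : ℂ := ((s : ℂ) * v)⁻¹ with hz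
  have hsv : ‖(s : ℂ) * v‖ < 1 := by
    rw [norm_mul, Complex.norm_real, Real.norm_of_nonneg hs0.le]
    nlinarith
  have hsv0 : (s : ℂ) * v ≠ 0 := mul_ne_zero (by exact_mod_cast hs0.ne') hv0
  have hzK : z ∈ Kᶜ := by
    intro hzK
    have h1 := hK1 hzK
    have h2 := one_lt_inv hsv0 hsv
    rw [mem_closedBall, dist_zero_right] at h1
    linarith
  have h1 := h.bernstein_walsh h0 hqd (M := C2) (fun z hz => by rw [hqe]; exact hin m z hz) hzK
  rw [hqe] at h1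
  have hs0' : (s : ℂ) ≠ 0 := by exact_mod_cast hs0.ne'
  have e1 : (s : ℂ) * z = v⁻¹ := by
    rw [hz]; field_simp
  have e2 : φ z = inv1 φ (1 / c) (s * v) / (s * v) := by
    rw [inv1_ne _ _ hsv0, hz]; field_simp
  rw [e1, e2, norm_div, norm_mul, Complex.norm_real, Real.norm_of_nonneg hs0.le] at h1
  set Φv := ‖inv1 φ (1 / c) v‖ with hΦv
  set Φs := ‖inv1 φ (1 / c) (s * v)‖ with hΦs
  have h2 : ‖(p m).eval v⁻¹‖ * ‖v‖ ^ m ≤ C2 * (Φs / s) ^ m := by
    calc ‖(p m).eval v⁻¹‖ * ‖v‖ ^ m ≤ (C2 * (Φs / (s * ‖v‖)) ^ m) * ‖v‖ ^ m := by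
          apply mul_le_mul_of_nonneg_right h1; positivity
      _ = C2 * ((Φs / (s * ‖v‖)) * ‖v‖) ^ m := by rw [mul_pow]; ring
      _ = C2 * (Φs / s) ^ m := by
          congr 2
          field_simp
  have h3 : (Φs / s) ^ m ≤ ((1 + ε) ^ 2 * Φv) ^ m :=
    pow_le_pow_left₀ (by positivity) (hs v hv) m
  rw [norm_div, norm_mul, norm_pow, div_eq_mul_inv, norm_mul, Complex.norm_real,
    Real.norm_of_nonneg hc.le]
  calc ‖(p m).eval v⁻¹‖ * ‖v‖ ^ m * ‖((p m).coeff m)‖⁻¹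
      ≤ (C2 * ((1 + ε) ^ 2 * Φv) ^ m) * (C1 * (c * (1 + ε)) ^ m) := by
        apply mul_le_mul (h2.trans (mul_le_mul_of_nonneg_left h3 hC2.le)) (hlead m) (by positivity)
          (by positivity)
    _ = (C1 * C2) * ((1 + ε) ^ m) ^ 3 * (c * Φv) ^ m := by
        rw [mul_pow, mul_pow, mul_pow, ← pow_mul, ← pow_mul]; ring
    _ ≤ Real.exp (η / 4 * m) * ((1 + ε) ^ m) ^ 3 * (c * Φv) ^ m := by
        gcongr
    _ = Real.exp (η * m) * (c * Φv) ^ m := by
        rw [hε1, ← Real.exp_nat_mul, ← Real.exp_nat_mul, ← Real.exp_add]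
        congr 2
        push_cast; ring

end

end Pool.Agent.H203
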