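import Mathlib
import Pool.Agent.H203.Ext
import Pool.Graph.R_seed8.Helper202.Univ
import Pool.Graph.R_pool_sql_team_39128cda.Lib.helper9_.RMT

/-!
# The exterior conformal map of a compact convex set: existence, and the inverse map
-/

open Complex Metric Set Filter Topology Bornology

namespace Pool.Agent.H203

/-- the inversion of the complement of `K`, with the point at infinity sent to `0` -/
def invDom (K : Set ℂ) : Set ℂ := {v | v = 0 ∨ v⁻¹ ∈ Kᶜ}

lemma zero_mem_invDom (K : Set ℂ) : (0 : ℂ) ∈ invDom K := Or.inl rfl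

lemma inv_mem_invDom {K : Set ℂ} {z : ℂ} (hz : z ∈ Kᶜ) : z⁻¹ ∈ invDom K := by
  right; rwa [inv_inv]

lemma mem_compl_of_invDom {K : Set ℂ} {v : ℂ} (hv : v ∈ invDom K) (h0 : v ≠ 0) : v⁻¹ ∈ Kᶜ :=
  hv.resolve_left h0

lemma invDom_bounded {K : Set ℂ} (h0 : (0 : ℂ) ∈ interior K) : IsBounded (invDom K) := by
  obtain ⟨r, hr, hrK⟩ := Metric.isOpen_iff.mp isOpen_interior 0 h0
  refine (Metric.isBounded_closedBall (x := (0 : ℂ)) (r := r⁻¹)).subset ?_
  intro v hv
  rw [mem_closedBall_zero_iff]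
  rcases eq_or_ne v 0 with rfl | hv0
  · rw [norm_zero]; positivity
  · have h1 := mem_compl_of_invDom hv hv0
    have h2 : ¬ (‖v⁻¹‖ < r) := fun h => h1 (interior_subset (hrK (mem_ball_zero_iff.mpr h)))
    rw [norm_inv, not_lt] at h2
    have h3 : 0 < ‖v‖ := norm_pos_iff.mpr hv0
    rw [le_inv_comm₀ h3 hr]
    exact h2

lemma invDom_open {K : Set ℂ} (hK : IsCompact K) : IsOpen (invDom K) := by
  rw [isOpen_iff_mem_nhds]
  intro v hv
  rcases eq_or_ne v 0 with rfl | hv0
  · obtain ⟨R, hR0, hR⟩ := hK.isBounded.subset_closedBall_lt 0 0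
    have : ball (0 : ℂ) R⁻¹ ⊆ invDom K := by
      intro u hu
      rcases eq_or_ne u 0 with rfl | hu0
      · exact zero_mem_invDom K
      · right
        intro h
        have h1 := hR h
        rw [mem_closedBall_zero_iff, norm_inv] at h1
        rw [mem_ball_zero_iff] at hu
        have h3 : 0 < ‖u‖ := norm_pos_iff.mpr hu0
        have := (lt_inv_comm₀ h3 hR0).mp hu
        linarith
    exact mem_of_superset (ball_mem_nhds 0 (by positivity)) this
  · have h1 := mem_compl_of_invDom hv hv0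
    have h2 : (fun v : ℂ => v⁻¹) ⁻¹' Kᶜ ∈ 𝓝 v :=
      (continuousAt_inv₀ hv0).preimage_mem_nhds (hK.isClosed.isOpen_compl.mem_nhds h1)
    exact mem_of_superset h2 fun u hu => Or.inr hu

lemma invDom_star {K : Set ℂ} (hK : Convex ℝ K) (h0 : (0 : ℂ) ∈ K) : StarConvex ℝ 0 (invDom K) := by
  intro v hv a b ha hb hab
  rw [smul_zero, zero_add]
  rcases eq_or_ne (b • v) 0 with h | h
  · rw [h]; exact zero_mem_invDom K
  · right
    have hb0 : b ≠ 0 := by rintro rfl; simp at h
    have hv0 : v ≠ 0 := by rintro rfl; simp at h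
    intro hc
    apply mem_compl_of_invDom hv hv0
    have h1 := hK hc h0 hb ha (by linarith)
    have h2 : b • (b • v)⁻¹ + a • (0 : ℂ) = v⁻¹ := by
      rw [smul_zero, add_zero, Complex.real_smul, Complex.real_smul]
      have : (b : ℂ) ≠ 0 := by exact_mod_cast hb0
      field_simp
    rwa [h2] at h1

section
variable {K : Set ℂ} {φ : ℂ → ℂ} {c : ℝ}

/-- A conformal map onto the exterior of the disc has a holomorphic inverse with the right behaviour
at infinity. -/
theorem ext_of_bij (hK : IsCompact K) (h0 : (0 : ℂ) ∈ K) (hc : 0 < c)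
    (hd : DifferentiableOn ℂ φ Kᶜ) (hb : BijOn φ Kᶜ {w | 1 < ‖w‖})
    (ht : Tendsto (fun z => φ z / z) (cobounded ℂ) (𝓝 (1 / (c : ℂ)))) :
    Ext K φ (Function.invFunOn φ Kᶜ) c := by
  have hKo : IsOpen Kᶜ := hK.isClosed.isOpen_compl
  have him : ∀ w : ℂ, 1 < ‖w‖ → w ∈ φ '' Kᶜ := fun w hw => hb.surjOn hw
  have hmφ : ∀ z ∈ Kᶜ, 1 < ‖φ z‖ := fun z hz => hb.mapsTo hz
  have hz0 : ∀ z ∈ Kᶜ, z ≠ 0 := by rintro z hz rfl; exact hz h0
  have hφ0 : ∀ z ∈ Kᶜ, φ z ≠ 0 := by
    intro z hz h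
    have := hmφ z hz
    rw [h, norm_zero] at this
    linarith
  have hcne : (c : ℂ) ≠ 0 := by exact_mod_cast hc.ne'
  set ψ := Function.invFunOn φ Kᶜ with hψ
  have hψmem : ∀ w : ℂ, 1 < ‖w‖ → ψ w ∈ Kᶜ := fun w hw =>
    Pool.Agent.Helper202.Univ.invFunOn_mem (him w hw)
  have hφψ : ∀ w : ℂ, 1 < ‖w‖ → φ (ψ w) = w := fun w hw =>
    Pool.Agent.Helper202.Univ.invFunOn_right (him w hw)
  have hψφ : ∀ z ∈ Kᶜ, ψ (φ z) = z := fun z hz =>
    Pool.Agent.Helper202.Univ.invFunOn_left hb.injOn hz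
  -- the inverted map
  set h : ℂ → ℂ := Function.update (fun v => (φ v⁻¹)⁻¹) 0 0 with hh
  have hhne : ∀ v, v ≠ 0 → h v = (φ v⁻¹)⁻¹ := fun v hv => by simp [hh, hv]
  have hh0 : h 0 = 0 := by simp [hh]
  have hDo : IsOpen (invDom K) := invDom_open hK
  have hhd : DifferentiableOn ℂ h (invDom K) := by
    rw [← differentiableOn_compl_singleton_and_continuousAt_iff
      (c := (0 : ℂ)) (hDo.mem_nhds (zero_mem_invDom K))]
    constructor
    · have h1 : DifferentiableOn ℂ (fun v : ℂ => (φ v⁻¹)⁻¹) (invDom K \ {0}) := by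
        apply DifferentiableOn.inv
        · apply DifferentiableOn.comp hd (t := Kᶜ)
          · apply differentiableOn_inv.mono
            intro v hv
            exact hv.2
          · intro v hv
            exact mem_compl_of_invDom hv.1 hv.2
        · intro v hv
          exact hφ0 _ (mem_compl_of_invDom hv.1 hv.2)
      apply h1.congr
      intro v hv
      exact hhne v hv.2
    · rw [hh, continuousAt_update_same]
      have h1 := ht.comp (tendsto_inv₀_nhdsNE_zero (α := ℂ))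
      have h2 : Tendsto (fun v : ℂ => v * (φ v⁻¹ / v⁻¹)⁻¹) (𝓝[≠] 0) (𝓝 (0 * (1 / (c : ℂ))⁻¹)) := by
        apply Tendsto.mul
        · exact tendsto_id.mono_left nhdsWithin_le_nhds
        · exact h1.inv₀ (by simpa using hcne)
      rw [zero_mul] at h2
      refine h2.congr' ?_
      filter_upwards [self_mem_nhdsWithin] with v hv
      have hv' : v ≠ 0 := hv
      rw [div_inv_eq_mul, mul_inv, mul_comm (φ v⁻¹)⁻¹, ← mul_assoc, mul_inv_cancel₀ hv', one_mul]
  have hhinj : InjOn h (invDom K) := by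
    intro u hu v hv huv
    rcases eq_or_ne u 0 with rfl | hu0 <;> rcases eq_or_ne v 0 with rfl | hv0
    · rfl
    · exfalso
      rw [hh0, hhne v hv0] at huv
      exact hφ0 _ (mem_compl_of_invDom hv hv0) (inv_eq_zero.mp huv.symm)
    · exfalso
      rw [hh0, hhne u hu0] at huv
      exact hφ0 _ (mem_compl_of_invDom hu hu0) (inv_eq_zero.mp huv)
    · rw [hhne u hu0, hhne v hv0] at huv
      have h1 := hb.injOn (mem_compl_of_invDom hu hu0) (mem_compl_of_invDom hv hv0) (inv_injective huv)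
      exact inv_injective h1
  set g := Function.invFunOn h (invDom K) with hg
  have h0im : (0 : ℂ) ∈ h '' invDom K := ⟨0, zero_mem_invDom K, hh0⟩
  have hg0 : g 0 = 0 := by
    have := Pool.Agent.Helper202.Univ.invFunOn_left hhinj (zero_mem_invDom K)
    rwa [hh0] at this
  have hgc : ContinuousAt g 0 :=
    Pool.Agent.Helper202.Univ.continuousAt_inv hDo hhd hhinj h0im
  have hgψ : ∀ w : ℂ, 1 < ‖w‖ → g w⁻¹ = (ψ w)⁻¹ := by
    intro w hw
    have hm := hψmem w hw
    have h1 : h (ψ w)⁻¹ = w⁻¹ := by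
      rw [hhne _ (inv_ne_zero (hz0 _ hm)), inv_inv, hφψ w hw]
    rw [← h1]
    exact Pool.Agent.Helper202.Univ.invFunOn_left hhinj (inv_mem_invDom hm)
  have hbig : ∀ᶠ w : ℂ in cobounded ℂ, 1 < ‖w‖ := by
    have := tendsto_norm_cobounded_atTop (E := ℂ)
    exact this.eventually_gt_atTop 1
  have hψinf : Tendsto ψ (cobounded ℂ) (cobounded ℂ) := by
    have h1 : Tendsto (fun w : ℂ => (ψ w)⁻¹) (cobounded ℂ) (𝓝[≠] 0) := by
      rw [tendsto_nhdsWithin_iff]
      constructor
      · have h2 : Tendsto (fun w : ℂ => g w⁻¹) (cobounded ℂ) (𝓝 0) := by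
          have h3 : Tendsto (fun w : ℂ => w⁻¹) (cobounded ℂ) (𝓝 0) := tendsto_inv₀_cobounded
          have h4 := hgc.tendsto.comp h3
          rwa [hg0] at h4
        refine h2.congr' ?_
        filter_upwards [hbig] with w hw using hgψ w hw
      · filter_upwards [hbig] with w hw
        exact inv_ne_zero (hz0 _ (hψmem w hw))
    have h2 := (tendsto_inv₀_nhdsNE_zero (α := ℂ)).comp h1
    refine h2.congr fun w => ?_
    simp
  refine ⟨hc, hd, ?_, hmφ, hψmem, hψφ, hφψ, ht, ?_⟩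
  · intro w hw
    exact (Pool.Agent.Helper202.Univ.differentiableAt_inv hKo hd hb.injOn (him w hw)).differentiableWithinAt
  · have h1 := (ht.comp hψinf).inv₀ (by simpa using hcne)
    have h2 : (1 / (c : ℂ))⁻¹ = c := by simp
    rw [h2] at h1
    refine h1.congr' ?_
    filter_upwards [hbig] with w hw
    simp only [Function.comp_apply]
    rw [hφψ w hw, inv_div]

end

/-- Every compact convex set with nonempty interior (containing `0`) has an exterior conformal map. -/
theorem exists_extMap {K : Set ℂ} (hK : IsCompact K) (hc : Convex ℝ K) (h0 : (0 : ℂ) ∈ interior K) :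
    ∃ (φ : ℂ → ℂ) (c : ℝ), 0 < c ∧ DifferentiableOn ℂ φ Kᶜ ∧ BijOn φ Kᶜ {w | 1 < ‖w‖} ∧
      Tendsto (fun z => φ z / z) (cobounded ℂ) (𝓝 (1 / (c : ℂ))) := by
  have h0K : (0 : ℂ) ∈ K := interior_subset h0
  have hDo : IsOpen (invDom K) := invDom_open hK
  have hs : IsSimplyConnected (invDom K) := by
    have h1 : ContractibleSpace (invDom K) :=
      (invDom_star hc h0K).contractibleSpace ⟨0, zero_mem_invDom K⟩
    show SimplyConnectedSpace (invDom K)
    infer_instance
  obtain ⟨f, g, hfg⟩ := Pool.Agent.Lib.helper9.RMT.rmt_bounded hDo hs (invDom_bounded h0)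
    (zero_mem_invDom K)
  have hfi : InjOn f (invDom K) := by
    intro u hu v hv huv
    rw [← hfg.l u hu, ← hfg.l v hv, huv]
  have ha : deriv f 0 ≠ 0 :=
    Pool.Agent.Helper202.Univ.deriv_ne_zero hDo hfg.dψ hfi (zero_mem_invDom K)
  set a := deriv f 0 with hadef
  have hna : (‖a‖ : ℂ) ≠ 0 := by simpa using ha
  set u : ℂ := (‖a‖ : ℂ) / a with hu
  have hun : ‖u‖ = 1 := by
    rw [hu, norm_div, Complex.norm_real, norm_norm, div_self (norm_ne_zero_iff.mpr ha)]
  have hu0 : u ≠ 0 := by intro h; rw [h, norm_zero] at hun; exact zero_ne_one hun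
  have hf0 : ∀ v ∈ invDom K, v ≠ 0 → f v ≠ 0 := by
    intro v hv hv0 h
    exact hv0 (hfi hv (zero_mem_invDom K) (h.trans hfg.z.symm))
  have hz0 : ∀ z ∈ Kᶜ, z ≠ 0 := by rintro z hz rfl; exact hz h0K
  refine ⟨fun z => (u * f z⁻¹)⁻¹, ‖a‖, norm_pos_iff.mpr ha, ?_, ⟨?_, ?_, ?_⟩, ?_⟩
  · apply DifferentiableOn.inv
    · apply (differentiableOn_const _).mul
      apply DifferentiableOn.comp hfg.dψ (t := invDom K)
      · apply differentiableOn_inv.mono
        intro v hv
        exact hz0 v hv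
      · intro v hv
        exact inv_mem_invDom hv
    · intro z hz
      exact mul_ne_zero hu0 (hf0 _ (inv_mem_invDom hz) (inv_ne_zero (hz0 z hz)))
  · intro z hz
    have h1 := mem_ball_zero_iff.mp (hfg.mψ (inv_mem_invDom hz))
    have h2 := norm_pos_iff.mpr (hf0 _ (inv_mem_invDom hz) (inv_ne_zero (hz0 z hz)))
    simp only [mem_ofPred_eq, norm_inv, norm_mul, hun, one_mul]
    exact (one_lt_inv₀ h2).mpr h1
  · intro z hz w hw h
    have h1 := mul_left_cancel₀ hu0 (inv_injective h)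
    exact inv_injective (hfi (inv_mem_invDom hz) (inv_mem_invDom hw) h1)
  · intro w hw
    have hw1 : 1 < ‖w‖ := hw
    have hw0 : w ≠ 0 := by rintro rfl; rw [norm_zero] at hw1; linarith
    have hwb : u⁻¹ * w⁻¹ ∈ ball (0 : ℂ) 1 := by
      rw [mem_ball_zero_iff, norm_mul, norm_inv, hun, inv_one, one_mul, norm_inv]
      exact inv_lt_one_of_one_lt₀ hw1
    have hgm := hfg.mφ hwb
    have hfgw := hfg.r _ hwb
    have hg0 : g (u⁻¹ * w⁻¹) ≠ 0 := by
      intro h
      rw [h, hfg.z] at hfgw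
      exact mul_ne_zero (inv_ne_zero hu0) (inv_ne_zero hw0) hfgw.symm
    refine ⟨(g (u⁻¹ * w⁻¹))⁻¹, mem_compl_of_invDom hgm hg0, ?_⟩
    simp only [inv_inv]
    rw [hfgw, ← mul_assoc, mul_inv_cancel₀ hu0, one_mul, inv_inv]
  · have hder : HasDerivAt f a 0 :=
      (hfg.dψ.differentiableAt (hDo.mem_nhds (zero_mem_invDom K))).hasDerivAt
    have h1 := hder.tendsto_slope
    have h2 : Tendsto (fun z : ℂ => z⁻¹) (cobounded ℂ) (𝓝[≠] 0) := tendsto_inv₀_cobounded'
    have h3 := (h1.comp h2).inv₀ ha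
    have h4 := h3.const_mul (u⁻¹)
    have h5 : u⁻¹ * a⁻¹ = 1 / (‖a‖ : ℂ) := by
      rw [hu]; field_simp
    rw [h5] at h4
    refine h4.congr' ?_
    filter_upwards [(tendsto_norm_cobounded_atTop (E := ℂ)).eventually_gt_atTop 0] with z hz
    have hz' : z ≠ 0 := norm_pos_iff.mp hz
    simp only [Function.comp_apply, slope_def_field, sub_zero, hfg.z]
    rw [mul_inv, inv_div]
    field_simp

end Pool.Agent.H203
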