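import Mathlib

/-!
# Logarithmic potentials determine probability measures on `[0,1]`
-/

open Set Filter Topology MeasureTheory

namespace Pool.Agent.H203

/-- probability measures on `ℝ` carried by `[0,1]` -/
structure UnitProb (μ : Measure ℝ) : Prop where
  prob : IsProbabilityMeasure μ
  carried : μ (Icc 0 1)ᶜ = 0

lemma UnitProb.ae {μ : Measure ℝ} (h : UnitProb μ) : ∀ᵐ x ∂μ, x ∈ Icc (0 : ℝ) 1 := by
  rw [ae_iff]; exact h.carried

lemma UnitProb.restrict {μ : Measure ℝ} (h : UnitProb μ) : μ.restrict (Icc 0 1) = μ :=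
  Measure.restrict_eq_self_of_ae_mem h.ae

lemma UnitProb.integrable {μ : Measure ℝ} (h : UnitProb μ) {f : ℝ → ℝ} (hf : ContinuousOn f (Icc 0 1)) :
    Integrable f μ := by
  have := h.prob
  rw [← h.restrict]
  exact hf.integrableOn_compact isCompact_Icc

/-- the bound of an integral through a bound on `[0,1]` -/
lemma UnitProb.abs_integral_le {μ : Measure ℝ} (h : UnitProb μ) {f : ℝ → ℝ} {C : ℝ}
    (hC : ∀ x ∈ Icc (0 : ℝ) 1, |f x| ≤ C) : |∫ x, f x ∂μ| ≤ C := by
  have := h.prob
  have h1 := norm_integral_le_of_norm_le_const (μ := μ) (f := f) (C := C) (by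
    filter_upwards [h.ae] with x hx
    rw [Real.norm_eq_abs]; exact hC x hx)
  simpa using h1

lemma log_cont {y : ℝ} (hy0 : 0 < y) (hy1 : y < 1) :
    ContinuousOn (fun x : ℝ => Real.log (1 - x * y)) (Icc 0 1) := by
  apply ContinuousOn.log (by fun_prop)
  intro x hx
  have : x * y < 1 := by nlinarith [hx.1, hx.2]
  linarith

/-- the difference of the moments -/
lemma moment_sum {μ : Measure ℝ} (h : UnitProb μ) {y : ℝ} (hy0 : 0 < y) (hy1 : y < 1) (n : ℕ) :
    |(∑ i ∈ Finset.range n, y ^ (i + 1) / (i + 1) * ∫ x, x ^ (i + 1) ∂μ) +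
      ∫ x, Real.log (1 - x * y) ∂μ| ≤ y ^ (n + 1) / (1 - y) := by
  have h1 : (∑ i ∈ Finset.range n, y ^ (i + 1) / (i + 1) * ∫ x, x ^ (i + 1) ∂μ) +
      ∫ x, Real.log (1 - x * y) ∂μ =
      ∫ x, ((∑ i ∈ Finset.range n, (x * y) ^ (i + 1) / (i + 1)) + Real.log (1 - x * y)) ∂μ := by
    rw [integral_add, integral_finsetSum]
    · congr 1
      refine Finset.sum_congr rfl fun i _ => ?_
      rw [← integral_const_mul]
      refine integral_congr_ae (Filter.Eventually.of_forall fun x => ?_)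
      simp only [mul_pow]; ring
    · intro i _
      exact h.integrable (by fun_prop)
    · exact h.integrable (by fun_prop)
    · exact h.integrable (log_cont hy0 hy1)
  rw [h1]
  apply h.abs_integral_le
  intro x hx
  have hxy0 : 0 ≤ x * y := mul_nonneg hx.1 hy0.le
  have hxy1 : x * y ≤ y := by nlinarith [hx.2]
  have h2 := Real.abs_log_sub_add_sum_range_le (x := x * y) (by rw [abs_of_nonneg hxy0]; linarith) n
  rw [abs_of_nonneg hxy0] at h2
  refine h2.trans ?_
  have h3 : 0 < 1 - y := by linarith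
  gcongr

/-- Convergence of the logarithmic potentials implies convergence of the moments. -/
lemma moments_tendsto {μs : ℕ → Measure ℝ} {μ : Measure ℝ} (hs : ∀ j, UnitProb (μs j)) (h : UnitProb μ)
    (hlog : ∀ y : ℝ, 0 < y → y < 1 → Tendsto (fun j => ∫ x, Real.log (1 - x * y) ∂(μs j)) atTop
      (𝓝 (∫ x, Real.log (1 - x * y) ∂μ))) (n : ℕ) :
    Tendsto (fun j => ∫ x, x ^ n ∂(μs j)) atTop (𝓝 (∫ x, x ^ n ∂μ)) := by
  induction n using Nat.strong_induction_on with
  | _ n ih =>
    rcases n with _ | n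
    · have e1 : ∀ j, ∫ x, x ^ 0 ∂(μs j) = 1 := by
        intro j; have := (hs j).prob; simp
      have e2 : ∫ x, x ^ 0 ∂μ = 1 := by have := h.prob; simp
      simp_rw [e1, e2]; exact tendsto_const_nhds
    · rw [tendsto_iff_norm_sub_tendsto_zero]
      rw [Metric.tendsto_atTop]
      intro ε hε
      -- choose `y`
      have hn1 : (0 : ℝ) < n + 1 := by positivity
      set y : ℝ := min (1 / 2) (ε / (16 * (n + 1))) with hy
      have hy0 : 0 < y := lt_min (by norm_num) (by positivity)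
      have hy1 : y ≤ 1 / 2 := min_le_left _ _
      have hy2 : y ≤ ε / (16 * (n + 1)) := min_le_right _ _
      -- the partial sums of the differences
      set D : ℕ → ℕ → ℝ := fun j i => (∫ x, x ^ (i + 1) ∂(μs j)) - ∫ x, x ^ (i + 1) ∂μ with hD
      have hDlim : ∀ i < n, Tendsto (fun j => D j i) atTop (𝓝 0) := by
        intro i hi
        have := (ih (i + 1) (by omega)).sub_const (∫ x, x ^ (i + 1) ∂μ)
        simpa [hD] using this
      have hsum : Tendsto (fun j => (∑ i ∈ Finset.range n, y ^ (i + 1) / (i + 1) * D j i) +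
          ((∫ x, Real.log (1 - x * y) ∂(μs j)) - ∫ x, Real.log (1 - x * y) ∂μ)) atTop (𝓝 0) := by
        have h1 : Tendsto (fun j => ∑ i ∈ Finset.range n, y ^ (i + 1) / (i + 1) * D j i) atTop
            (𝓝 (∑ i ∈ Finset.range n, y ^ (i + 1) / ((i : ℝ) + 1) * 0)) := by
          apply tendsto_finsetSum
          intro i hi
          exact (hDlim i (Finset.mem_range.mp hi)).const_mul _
        have h2 := (hlog y hy0 (by linarith)).sub_const (∫ x, Real.log (1 - x * y) ∂μ)
        have h3 := h1.add h2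
        simpa using h3
      have hpos : 0 < y ^ (n + 1) / (n + 1) * (ε / 2) := by positivity
      rw [Metric.tendsto_atTop] at hsum
      obtain ⟨j0, hj0⟩ := hsum _ hpos
      refine ⟨j0, fun j hj => ?_⟩
      have h1 := hj0 j hj
      rw [Real.dist_eq, sub_zero] at h1
      have h2 := moment_sum (hs j) hy0 (by linarith) (n + 1)
      have h3 := moment_sum h hy0 (by linarith) (n + 1)
      have h4 : |(∑ i ∈ Finset.range (n + 1), y ^ (i + 1) / (i + 1) * D j i) +
          ((∫ x, Real.log (1 - x * y) ∂(μs j)) - ∫ x, Real.log (1 - x * y) ∂μ)| ≤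
          2 * (y ^ (n + 1 + 1) / (1 - y)) := by
        have e : (∑ i ∈ Finset.range (n + 1), y ^ (i + 1) / (i + 1) * D j i) +
          ((∫ x, Real.log (1 - x * y) ∂(μs j)) - ∫ x, Real.log (1 - x * y) ∂μ) =
          ((∑ i ∈ Finset.range (n + 1), y ^ (i + 1) / (i + 1) * ∫ x, x ^ (i + 1) ∂(μs j)) +
            ∫ x, Real.log (1 - x * y) ∂(μs j)) -
          ((∑ i ∈ Finset.range (n + 1), y ^ (i + 1) / (i + 1) * ∫ x, x ^ (i + 1) ∂μ) +
            ∫ x, Real.log (1 - x * y) ∂μ) := by
          simp only [hD, mul_sub, Finset.sum_sub_distrib]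
          ring
        rw [e]
        refine (abs_sub _ _).trans ?_
        linarith
      rw [Finset.sum_range_succ] at h4
      have h5 : |y ^ (n + 1) / ((n : ℝ) + 1) * D j n| ≤ 2 * (y ^ (n + 1 + 1) / (1 - y)) +
          y ^ (n + 1) / (n + 1) * (ε / 2) := by
        rw [abs_le] at h4 ⊢
        rw [abs_lt] at h1
        constructor <;> linarith [h4.1, h4.2, h1.1, h1.2]
      rw [abs_mul, abs_of_pos (show (0 : ℝ) < y ^ (n + 1) / ((n : ℝ) + 1) by positivity)] at h5
      have h6 : 2 * (y ^ (n + 1 + 1) / (1 - y)) ≤ y ^ (n + 1) / ((n : ℝ) + 1) * (ε / 4) := by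
        have h7 : 1 / (1 - y) ≤ 2 := by
          rw [div_le_iff₀ (by linarith)]; linarith
        have h70 : 0 < 1 / (1 - y) := by
          apply one_div_pos.mpr; linarith
        calc 2 * (y ^ (n + 1 + 1) / (1 - y)) = 2 * y ^ (n + 1) * y * (1 / (1 - y)) := by ring
          _ ≤ 2 * y ^ (n + 1) * (ε / (16 * (n + 1))) * 2 := by gcongr
          _ = y ^ (n + 1) / ((n : ℝ) + 1) * (ε / 4) := by field_simp; ring
      have h8 : y ^ (n + 1) / ((n : ℝ) + 1) * |D j n| ≤ y ^ (n + 1) / ((n : ℝ) + 1) * (3 / 4 * ε) := by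
        linarith
      have h9 : |D j n| ≤ 3 / 4 * ε := le_of_mul_le_mul_left h8 (by positivity)
      rw [Real.dist_eq, sub_zero, Real.norm_eq_abs, abs_abs]
      calc |∫ x, x ^ (n + 1) ∂(μs j) - ∫ x, x ^ (n + 1) ∂μ| ≤ 3 / 4 * ε := h9
        _ < ε := by linarith

/-- Convergence of the logarithmic potentials implies weak convergence. -/
lemma weak_tendsto {μs : ℕ → Measure ℝ} {μ : Measure ℝ} (hs : ∀ j, UnitProb (μs j)) (h : UnitProb μ)
    (hlog : ∀ y : ℝ, 0 < y → y < 1 → Tendsto (fun j => ∫ x, Real.log (1 - x * y) ∂(μs j)) atTop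
      (𝓝 (∫ x, Real.log (1 - x * y) ∂μ))) {f : ℝ → ℝ} (hf : ContinuousOn f (Icc 0 1)) :
    Tendsto (fun j => ∫ x, f x ∂(μs j)) atTop (𝓝 (∫ x, f x ∂μ)) := by
  rw [Metric.tendsto_atTop]
  intro ε hε
  obtain ⟨P, hP⟩ := exists_polynomial_near_of_continuousOn 0 1 f hf (ε / 4) (by positivity)
  have hPlim : Tendsto (fun j => ∫ x, P.eval x ∂(μs j)) atTop (𝓝 (∫ x, P.eval x ∂μ)) := by
    have h1 : ∀ ν : Measure ℝ, UnitProb ν → ∫ x, P.eval x ∂ν =
        ∑ i ∈ Finset.range (P.natDegree + 1), P.coeff i * ∫ x, x ^ i ∂ν := by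
      intro ν hν
      simp_rw [Polynomial.eval_eq_sum_range]
      rw [integral_finsetSum]
      · refine Finset.sum_congr rfl fun i _ => ?_
        rw [integral_const_mul]
      · intro i _
        exact hν.integrable (by fun_prop)
    simp_rw [h1 _ (hs _), h1 _ h]
    apply tendsto_finsetSum
    intro i _
    exact (moments_tendsto hs h hlog i).const_mul _
  rw [Metric.tendsto_atTop] at hPlim
  obtain ⟨j0, hj0⟩ := hPlim (ε / 4) (by positivity)
  refine ⟨j0, fun j hj => ?_⟩
  have h1 := hj0 j hj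
  rw [Real.dist_eq] at h1 ⊢
  have hnear : ∀ ν : Measure ℝ, UnitProb ν → |(∫ x, P.eval x ∂ν) - ∫ x, f x ∂ν| ≤ ε / 4 := by
    intro ν hν
    rw [← integral_sub (hν.integrable P.continuous.continuousOn) (hν.integrable hf)]
    apply hν.abs_integral_le
    intro x hx
    exact (hP x hx).le
  have h2 := abs_le.mp (hnear _ (hs j))
  have h3 := abs_le.mp (hnear _ h)
  have h4 := abs_lt.mp h1
  rw [abs_lt]
  constructor <;> linarith [h2.1, h2.2, h3.1, h3.2, h4.1, h4.2]

/-- The logarithmic potential determines the measure. -/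
lemma unitProb_unique {μ ν : Measure ℝ} (hμ : UnitProb μ) (hν : UnitProb ν)
    (hlog : ∀ y : ℝ, 0 < y → y < 1 → ∫ x, Real.log (1 - x * y) ∂μ = ∫ x, Real.log (1 - x * y) ∂ν) :
    μ = ν := by
  have := hμ.prob
  have := hν.prob
  apply ext_of_forall_integral_eq_of_IsFiniteMeasure
  intro f
  have h1 := weak_tendsto (μs := fun _ => μ) (fun _ => hμ) hν (fun y h0 h1 => by
    rw [hlog y h0 h1]; exact tendsto_const_nhds) (f := f) f.continuous.continuousOn
  exact tendsto_nhds_unique tendsto_const_nhds h1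

/-- the normalised counting measure of `x 0, …, x (j-1)` -/
noncomputable def cm (j : ℕ) (x : ℕ → ℝ) : Measure ℝ :=
  (j : ENNReal)⁻¹ • ∑ ν ∈ Finset.range j, Measure.dirac (x ν)

lemma cm_unitProb {j : ℕ} (hj : 1 ≤ j) {x : ℕ → ℝ} (hx : ∀ ν < j, x ν ∈ Icc (0 : ℝ) 1) :
    UnitProb (cm j x) := by
  have hj0 : (j : ENNReal) ≠ 0 := by
    simp; omega
  constructor
  · constructor
    simp only [cm, Measure.smul_apply, Measure.coe_finsetSum, Finset.sum_apply, measure_univ,
      Finset.sum_const, Finset.card_range, nsmul_eq_mul, mul_one, smul_eq_mul]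
    exact ENNReal.inv_mul_cancel hj0 (by simp)
  · simp only [cm, Measure.smul_apply, Measure.coe_finsetSum, Finset.sum_apply, smul_eq_mul]
    rw [Finset.sum_eq_zero, mul_zero]
    intro ν hν
    rw [Measure.dirac_apply' _ measurableSet_Icc.compl]
    simp only [indicator_apply_eq_zero, mem_compl_iff]
    intro h; exact absurd (hx ν (Finset.mem_range.mp hν)) h

lemma cm_integral (j : ℕ) (x : ℕ → ℝ) (f : ℝ → ℝ) :
    ∫ t, f t ∂(cm j x) = (1 / (j : ℝ)) * ∑ ν ∈ Finset.range j, f (x ν) := by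
  simp only [cm]
  rw [integral_smul_measure, integral_finsetSum_measure]
  · simp
  · intro ν _
    exact integrable_dirac (by simp)

end Pool.Agent.H203
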