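import Mathlib
import Pool.Agent.H203.Moments

/-!
# Limits of probability measures on `[0,1]`
-/

open Set Filter Topology MeasureTheory
open scoped BoundedContinuousFunction

namespace Pool.Agent.H203

lemma exists_limit {μs : ℕ → Measure ℝ} (hs : ∀ j, UnitProb (μs j)) :
    ∃ μ : Measure ℝ, UnitProb μ ∧ ∀ f : ℝ → ℝ, ContinuousOn f (Icc 0 1) → ∀ L : ℝ,
      Tendsto (fun j => ∫ x, f x ∂(μs j)) atTop (𝓝 L) → ∫ x, f x ∂μ = L := by
  set X := Icc (0 : ℝ) 1 with hX
  have hemb : MeasurableEmbedding (Subtype.val : X → ℝ) := MeasurableEmbedding.subtype_coe measurableSet_Icc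
  have hprob : ∀ j, IsProbabilityMeasure ((μs j).comap (Subtype.val : X → ℝ)) := by
    intro j
    constructor
    rw [hemb.comap_apply, image_univ, Subtype.range_coe]
    have := (hs j).prob
    rw [prob_compl_eq_zero_iff measurableSet_Icc |>.mp (hs j).carried]
  set ν : ℕ → ProbabilityMeasure X := fun j => ⟨(μs j).comap (Subtype.val : X → ℝ), hprob j⟩ with hν
  obtain ⟨μX, hμX⟩ := exists_clusterPt_of_compactSpace (map ν atTop)
  have hcl : ∀ F : X →ᵇ ℝ, ∀ L : ℝ, Tendsto (fun j => ∫ x, F x ∂(ν j : Measure X)) atTop (𝓝 L) →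
      ∫ x, F x ∂(μX : Measure X) = L := by
    intro F L hL
    have hc : Continuous fun ρ : ProbabilityMeasure X => ∫ x, F x ∂(ρ : Measure X) := by
      rw [continuous_iff_continuousAt]
      intro ρ
      exact (ProbabilityMeasure.tendsto_iff_forall_integral_tendsto.mp (tendsto_id (α := ProbabilityMeasure X) (x := 𝓝 ρ))) F
    have h1 := hμX.map hc.continuousAt (tendsto_map (f := fun ρ : ProbabilityMeasure X => ∫ x, F x ∂(ρ : Measure X)))
    rw [Filter.map_map] at h1
    have h2 : ClusterPt (∫ x, F x ∂(μX : Measure X)) (𝓝 L) := h1.mono hL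
    exact eq_of_nhds_neBot h2
  refine ⟨(μX : Measure X).map (Subtype.val : X → ℝ), ?_, ?_⟩
  · constructor
    · exact Measure.isProbabilityMeasure_map measurable_subtype_coe.aemeasurable
    · rw [Measure.map_apply measurable_subtype_coe measurableSet_Icc.compl]
      have : (Subtype.val : X → ℝ) ⁻¹' (Icc 0 1)ᶜ = ∅ := by
        ext x; simp only [mem_preimage, mem_compl_iff, mem_empty_iff_false, iff_false, not_not]
        exact x.2
      rw [this, measure_empty]
  · intro f hf L hL
    rw [hemb.integral_map]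
    set F : X →ᵇ ℝ := BoundedContinuousFunction.mkOfCompact ⟨X.domRestrict f, hf.domRestrict⟩ with hF
    have h1 := hcl F L (by
      refine hL.congr fun j => ?_
      have e : ∫ x, F x ∂(ν j : Measure X) = ∫ x in X, f x ∂(μs j) := by
        rw [← integral_subtype_comap measurableSet_Icc]
        rfl
      rw [e, (hs j).restrict])
    exact h1

end Pool.Agent.H203
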