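import Mathlib
import Pool.Graph.R_pool_sql_team_seeded_f0cf7b00.H766R2.BergFinal

/-!
# Geometry of the regular `N`-gon, `N = 3, 4`
-/

open Complex Metric Set Filter Topology

namespace Pool.Agent.H203

/-- the open regular `N`-gon with vertices the `N`-th roots of unity -/
def gon (N : ℕ) : Set ℂ := interior (convexHull ℝ {z : ℂ | z ^ N = 1})

lemma rootset_finite {N : ℕ} (hN : 0 < N) : {z : ℂ | z ^ N = 1}.Finite := by
  have h : {z : ℂ | z ^ N = 1} = ((Polynomial.nthRoots N (1 : ℂ)).toFinset : Set ℂ) := by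
    ext z
    simp [Polynomial.mem_nthRoots hN]
  rw [h]
  exact Finset.finite_toSet _

lemma hull_compact {N : ℕ} (hN : 0 < N) : IsCompact (convexHull ℝ {z : ℂ | z ^ N = 1}) :=
  Set.Finite.isCompact_convexHull (𝕜 := ℝ) (rootset_finite hN)

lemma hull_sub_ball {N : ℕ} (hN : 0 < N) : convexHull ℝ {z : ℂ | z ^ N = 1} ⊆ closedBall 0 1 := by
  apply convexHull_min _ (convex_closedBall _ _)
  intro z hz
  have h : z ^ N = 1 := hz
  have h1 : ‖z‖ ^ N = 1 := by rw [← norm_pow, h, norm_one]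
  have h2 : ‖z‖ = 1 := (pow_eq_one_iff_of_nonneg (norm_nonneg _) hN.ne').mp h1
  rw [mem_closedBall_zero_iff, h2]

lemma gon_nonempty {N : ℕ} (hN : N = 3 ∨ N = 4) : (gon N).Nonempty := by
  have key : ∀ ω : ℂ, H766R2.Berg.Good N ω → (gon N).Nonempty := by
    intro ω h
    have h1 := H766R2.Berg.vol_ngon_pos h
    rw [Set.nonempty_iff_ne_empty]
    intro h2
    have h3 : H766R2.Berg.ngon N = ∅ := h2
    rw [h3] at h1
    simp at h1
  rcases hN with rfl | rfl
  · exact key _ H766R2.Berg.good3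
  · exact key _ H766R2.Berg.good4

lemma gon_rot {N : ℕ} {ζ : ℂ} (hN : 0 < N) (hζ : ζ ^ N = 1) {z : ℂ} (hz : z ∈ gon N) : ζ * z ∈ gon N := by
  have hζ0 : ζ ≠ 0 := by
    rintro rfl
    rw [zero_pow hN.ne'] at hζ
    exact zero_ne_one hζ
  have h1 : IsOpen ((Homeomorph.mulLeft₀ ζ hζ0) '' gon N) :=
    (Homeomorph.mulLeft₀ ζ hζ0).isOpenMap _ isOpen_interior
  have h2 : (Homeomorph.mulLeft₀ ζ hζ0) '' gon N ⊆ convexHull ℝ {z : ℂ | z ^ N = 1} := by
    rintro _ ⟨w, hw, rfl⟩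
    exact H766R2.Berg.K_rot hζ (interior_subset hw)
  exact interior_maximal h2 h1 ⟨z, hz, rfl⟩

lemma zero_mem_gon {N : ℕ} (hN : N = 3 ∨ N = 4) : (0 : ℂ) ∈ gon N := by
  have hN0 : 0 < N := by omega
  have hN1 : 1 < N := by omega
  obtain ⟨z, hz⟩ := gon_nonempty hN
  have hζ := Complex.isPrimitiveRoot_exp N hN0.ne'
  set ζ := Complex.exp (2 * Real.pi * Complex.I / N) with hζdef
  have hconv : Convex ℝ (gon N) := (convex_convexHull ℝ _).interior
  have h1 : ∑ i ∈ Finset.range N, ((1 : ℝ) / N) • (ζ ^ i * z) ∈ gon N := by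
    apply hconv.sum_mem
    · intro i _; positivity
    · rw [Finset.sum_const, Finset.card_range, nsmul_eq_mul]
      have : (N : ℝ) ≠ 0 := by exact_mod_cast hN0.ne'
      field_simp
    · intro i _
      apply gon_rot hN0 _ hz
      rw [← pow_mul, mul_comm, pow_mul, hζ.pow_eq_one, one_pow]
  have h2 : ∑ i ∈ Finset.range N, ((1 : ℝ) / N) • (ζ ^ i * z) = 0 := by
    rw [← Finset.smul_sum, ← Finset.sum_mul, hζ.geom_sum_eq_zero hN1, zero_mul, smul_zero]
  rwa [h2] at h1

lemma closure_gon {N : ℕ} (hN : N = 3 ∨ N = 4) : closure (gon N) = convexHull ℝ {z : ℂ | z ^ N = 1} := by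
  have h1 := (convex_convexHull ℝ {z : ℂ | z ^ N = 1}).closure_interior_eq_closure_of_nonempty_interior
    (gon_nonempty hN)
  have h2 := (hull_compact (N := N) (by omega)).isClosed.closure_eq
  unfold gon
  rw [h1, h2]

lemma gon_star {N : ℕ} (hN : N = 3 ∨ N = 4) (s : ℝ) (hs0 : 0 < s) (hs1 : s < 1) (z : ℂ)
    (hz : z ∈ closure (gon N)) : (s : ℂ) * z ∈ gon N := by
  have hz' : z ∈ closure (convexHull ℝ {z : ℂ | z ^ N = 1}) := closure_mono interior_subset hz
  have h := (convex_convexHull ℝ {z : ℂ | z ^ N = 1}).combo_interior_closure_mem_interior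
    (zero_mem_gon hN) hz' (a := 1 - s) (b := s) (by linarith) hs0.le (by ring)
  rw [smul_zero, zero_add, Complex.real_smul] at h
  exact h

end Pool.Agent.H203
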