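import Mathlib
import Pool.Agent.H203.Asymp

/-!
# Convergence of the logarithmic potentials of the zero counting measures
-/

open Complex Metric Set Filter Topology Polynomial MeasureTheory Bornology

namespace Pool.Agent.H203

section
variable {G K : Set ℂ} {φ ψ : ℂ → ℂ} {c : ℝ} {p : ℕ → ℂ[X]}

lemma one_sub_slit {t : ℝ} (ht : t ∈ Icc (0 : ℝ) 1) {N : ℕ} (hN : 1 ≤ N) {v : ℂ} (hv : ‖v‖ < 1) :
    (1 : ℂ) - t * v ^ N ∈ slitPlane := by
  have h1 : ‖-((t : ℂ) * v ^ N)‖ < 1 := by
    rw [norm_neg, norm_mul, norm_pow, Complex.norm_real, Real.norm_of_nonneg ht.1]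
    have h2 : ‖v‖ ^ N < 1 := pow_lt_one₀ (norm_nonneg _) hv (by omega)
    have h3 : 0 ≤ ‖v‖ ^ N := by positivity
    nlinarith [ht.1, ht.2]
  have := mem_slitPlane_of_norm_lt_one h1
  rwa [← sub_eq_add_neg] at this

theorem Ext.pot_tendsto (h : Ext K φ ψ c) (hK : IsCompact K) (hK1 : K ⊆ closedBall 0 1)
    (h0 : (0 : ℂ) ∈ K) (hGK : G ⊆ K) (hGo : IsOpen G) (hp : IsONP G p)
    (hstar : ∀ s : ℝ, 0 < s → s < 1 → ∀ z ∈ K, (s : ℂ) * z ∈ G) {N : ℕ} (hN : 1 ≤ N) (k : ℕ)
    {t : ℕ → ℕ → ℝ} (ht : ∀ j ν, ν < j → t j ν ∈ Icc (0 : ℝ) 1)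
    (hfac : ∀ j v, v ≠ 0 → (p (j * N + k)).eval v⁻¹ * v ^ (j * N + k) / (p (j * N + k)).coeff (j * N + k) =
      ∏ ν ∈ Finset.range j, (1 - (t j ν : ℂ) * v ^ N)) {v : ℂ} (hv : ‖v‖ < 1) :
    Tendsto (fun j : ℕ => (1 / (j : ℝ)) * ∑ ν ∈ Finset.range j, Real.log ‖1 - (t j ν : ℂ) * v ^ N‖) atTop
      (𝓝 (N * Real.log ‖(c : ℂ) * inv1 φ (1 / c) v‖)) := by
  have hc := h.c_pos
  have hcne : (c : ℂ) ≠ 0 := by exact_mod_cast hc.ne'
  set f : ℂ → ℝ := fun v => Real.log ‖(c : ℂ) * inv1 φ (1 / c) v‖ with hf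
  have hfan : AnalyticOnNhd ℂ (fun v => (c : ℂ) * inv1 φ (1 / c) v) (ball 0 1) :=
    ((differentiableOn_const _).mul (h.diffP hK1)).analyticOnNhd isOpen_ball
  have hfh : InnerProductSpace.HarmonicOnNhd f (ball 0 1) := by
    intro u hu
    exact (hfan u hu).harmonicAt_log_norm (mul_ne_zero hcne (h.P_ne hK1 hu))
  obtain ⟨b, hb, hbre⟩ := hfh.exists_analyticOnNhd_ball_re_eq
  have hf0 : f 0 = 0 := by
    simp only [hf, inv1_zero]
    rw [mul_one_div_cancel hcne, norm_one, Real.log_one]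
  have hb0 : (b 0).re = 0 := by
    have := hbre (mem_ball_self one_pos)
    simp only at this
    rw [this, hf0]
  set a : ℕ → ℂ → ℂ := fun j v => ∑ ν ∈ Finset.range j, Complex.log (1 - (t j ν : ℂ) * v ^ N) with ha
  have hare : ∀ j v, (a j v).re = ∑ ν ∈ Finset.range j, Real.log ‖1 - (t j ν : ℂ) * v ^ N‖ := by
    intro j v
    simp only [ha, Complex.re_sum, Complex.log_re]
  have hadiff : ∀ j, DifferentiableOn ℂ (a j) (ball 0 1) := by
    intro j
    simp only [ha]
    apply DifferentiableOn.fun_sum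
    intro ν hν
    apply DifferentiableOn.clog
    · fun_prop
    · intro u hu
      exact one_sub_slit (ht j ν (Finset.mem_range.mp hν)) hN (by simpa using hu)
  set r : ℝ := (1 + ‖v‖) / 2 with hr
  have hr0 : 0 < r := by have := norm_nonneg v; rw [hr]; linarith
  have hr1 : r < 1 := by rw [hr]; linarith
  have hvr : ‖v‖ < r := by rw [hr]; linarith
  -- main estimate
  have hmain : ∀ η : ℝ, 0 < η → ∀ᶠ j : ℕ in atTop,
      |(a j v).re - ((j * N + k : ℕ) : ℝ) * f v| ≤ 2 * (η * ((j * N + k : ℕ) : ℝ)) * ‖v‖ / (r - ‖v‖) := by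
    intro η hη
    have h1 := h.asymp hK hK1 h0 hGK hGo hp hstar hη hr0 hr1
    have h2 : Tendsto (fun j : ℕ => j * N + k) atTop atTop := by
      apply tendsto_atTop_mono (f := fun j : ℕ => j) _ tendsto_id
      intro j; nlinarith
    filter_upwards [h2.eventually h1, eventually_ge_atTop 1] with j hj hj1
    set m := j * N + k with hm
    have hm1 : 1 ≤ m := by rw [hm]; nlinarith
    have hm0 : (0 : ℝ) < m := by exact_mod_cast hm1
    set E : ℂ → ℂ := fun v => a j v - m * (b v - b 0) with hE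
    have hEd : DifferentiableOn ℂ E (ball 0 r) := by
      have hs : ball (0 : ℂ) r ⊆ ball 0 1 := ball_subset_ball hr1.le
      exact ((hadiff j).mono hs).sub ((differentiableOn_const _).mul
        ((hb.differentiableOn.mono hs).sub (differentiableOn_const _)))
    have hE0 : E 0 = 0 := by
      simp only [hE, ha, sub_self, mul_zero, sub_zero]
      apply Finset.sum_eq_zero
      intro ν _
      rw [zero_pow (by omega), mul_zero, sub_zero, Complex.log_one]
    have hEre : ∀ u : ℂ, u ∈ ball (0 : ℂ) 1 → (E u).re = (a j u).re - m * f u := by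
      intro u hu
      have e : (E u).re = (a j u).re - m * ((b u).re - (b 0).re) := by
        simp only [hE, Complex.sub_re, Complex.mul_re, Complex.natCast_re, Complex.natCast_im, zero_mul, sub_zero]
      rw [e, hb0, sub_zero]
      have := hbre hu
      simp only at this
      rw [this]
    have hmaps : MapsTo E (ball 0 r) {z | z.re ≤ η * m} := by
      intro u hu
      have hur : ‖u‖ < r := by simpa using hu
      have hu1 : u ∈ ball (0 : ℂ) 1 := by simp only [mem_ball, dist_zero_right]; linarith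
      show (E u).re ≤ η * m
      by_cases hu0 : u = 0
      · rw [hu0, hE0]; simp only [Complex.zero_re]; positivity
      · rw [hEre u hu1]
        have h3 := hj u (by simp only [mem_closedBall, dist_zero_right]; exact hur.le) hu0
        rw [hfac j u hu0, norm_prod] at h3
        have h4 : (a j u).re = Real.log (∏ ν ∈ Finset.range j, ‖1 - (t j ν : ℂ) * u ^ N‖) := by
          rw [hare, Real.log_prod]
          intro ν hν
          exact norm_ne_zero_iff.mpr (slitPlane_ne_zero (one_sub_slit (ht j ν (Finset.mem_range.mp hν)) hN (by linarith)))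
        have hpos : 0 < ∏ ν ∈ Finset.range j, ‖1 - (t j ν : ℂ) * u ^ N‖ := by
          apply Finset.prod_pos
          intro ν hν
          exact norm_pos_iff.mpr (slitPlane_ne_zero (one_sub_slit (ht j ν (Finset.mem_range.mp hν)) hN (by linarith)))
        have h5 := Real.log_le_log hpos h3
        have hΦ : 0 < ‖(c : ℂ) * inv1 φ (1 / c) u‖ := norm_pos_iff.mpr (mul_ne_zero hcne (h.P_ne hK1 hu1))
        rw [Real.log_mul (Real.exp_pos _).ne' (by positivity), Real.log_exp, Real.log_pow] at h5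
        rw [h4]
        simp only [hf]
        linarith
    have h6 := Complex.borelCaratheodory_zero (by positivity : 0 < η * m) hEd hmaps hr0
      (z := v) (by simpa using hvr) hE0
    have h7 := hEre v (by simpa using hv)
    rw [← h7]
    exact (Complex.abs_re_le_norm _).trans h6
  -- conclusion
  have hgap : 0 < r - ‖v‖ := by linarith
  have hlim1 : Tendsto (fun j : ℕ => (a j v).re / ((j * N + k : ℕ) : ℝ)) atTop (𝓝 (f v)) := by
    rw [Metric.tendsto_nhds]
    intro ε hε
    set η : ℝ := ε * (r - ‖v‖) / (4 * (‖v‖ + 1)) with hη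
    have hη0 : 0 < η := by positivity
    filter_upwards [hmain η hη0, eventually_ge_atTop 1] with j hj hj1
    have hm1 : 1 ≤ j * N + k := by nlinarith
    have hm0 : (0 : ℝ) < ((j * N + k : ℕ) : ℝ) := by exact_mod_cast hm1
    rw [Real.dist_eq]
    have e : (a j v).re / ((j * N + k : ℕ) : ℝ) - f v =
        ((a j v).re - ((j * N + k : ℕ) : ℝ) * f v) / ((j * N + k : ℕ) : ℝ) := by
      field_simp
    rw [e, abs_div, abs_of_pos hm0, div_lt_iff₀ hm0]
    refine hj.trans_lt ?_
    rw [div_lt_iff₀ hgap]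
    have h8 : 2 * η * ‖v‖ < ε * (r - ‖v‖) := by
      have : 2 * η * ‖v‖ = ε * (r - ‖v‖) * (‖v‖ / (2 * (‖v‖ + 1))) := by
        rw [hη]; field_simp; ring
      rw [this]
      have h9 : ‖v‖ / (2 * (‖v‖ + 1)) < 1 := by
        rw [div_lt_one (by positivity)]; linarith [norm_nonneg v]
      have : 0 < ε * (r - ‖v‖) := by positivity
      nlinarith
    nlinarith
  have hlim2 : Tendsto (fun j : ℕ => ((j * N + k : ℕ) : ℝ) / (j : ℝ)) atTop (𝓝 (N : ℝ)) := by
    have h1 : Tendsto (fun j : ℕ => (N : ℝ) + (k : ℝ) / (j : ℝ)) atTop (𝓝 ((N : ℝ) + 0)) :=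
      tendsto_const_nhds.add (tendsto_const_div_atTop_nhds_zero_nat (k : ℝ))
    rw [add_zero] at h1
    refine h1.congr' ?_
    filter_upwards [eventually_ge_atTop 1] with j hj
    have : (0 : ℝ) < j := by exact_mod_cast hj
    push_cast
    field_simp
  have hlim3 := hlim2.mul hlim1
  refine hlim3.congr' ?_
  filter_upwards [eventually_ge_atTop 1] with j hj
  have hj0 : (0 : ℝ) < j := by exact_mod_cast hj
  have hm1 : 1 ≤ j * N + k := by nlinarith
  have hm0 : (0 : ℝ) < ((j * N + k : ℕ) : ℝ) := by exact_mod_cast hm1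
  rw [hare]
  generalize (∑ ν ∈ Finset.range j, Real.log ‖1 - (t j ν : ℂ) * v ^ N‖) = S
  field_simp

end

end Pool.Agent.H203
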