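import Mathlib
import Pool.Graph.R_pool_sql_team_seeded_f0cf7b00.H766R2.BergFinal
import Pool.Agent.H203.Potential
import Pool.Agent.H203.Limit
import Pool.Agent.H203.ExtMap
import Pool.Agent.H203.Ngon

/-!
# The limit distribution of the zeros of the Bergman polynomials of the triangle and the square
-/

open Complex Metric Set Filter Topology Polynomial MeasureTheory Bornology

namespace Pool.Agent.H203

/-- The factorisation of the reversed polynomial. -/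
lemma reversed_fac {N k j : ℕ} {P : ℂ[X]} {q : ℝ[X]} {t : ℕ → ℝ} (hN : 1 ≤ N)
    (hP : P = X ^ k * (q.map (algebraMap ℝ ℂ)).comp (X ^ N)) (hd : q.natDegree = j) (hPd : P.natDegree = j * N + k)
    (hq : q = C q.leadingCoeff * ∏ ν ∈ Finset.range j, (X - C (t ν))) (hP0 : P ≠ 0) {v : ℂ} (hv : v ≠ 0) :
    P.eval v⁻¹ * v ^ (j * N + k) / P.coeff (j * N + k) = ∏ ν ∈ Finset.range j, (1 - (t ν : ℂ) * v ^ N) := by
  have hq0 : q ≠ 0 := by
    rintro rfl
    apply hP0; rw [hP]; simp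
  have hlead : P.coeff (j * N + k) = (q.leadingCoeff : ℂ) := by
    rw [← hPd, coeff_natDegree, hP]
    have h1 := H766R2.Berg.bigP_leadingCoeff (N := N) (by omega) k q
    unfold H766R2.Berg.bigP at h1
    rw [h1]
  have hlne : (q.leadingCoeff : ℂ) ≠ 0 := by exact_mod_cast leadingCoeff_ne_zero.mpr hq0
  have heval : P.eval v⁻¹ = v⁻¹ ^ k * ((q.leadingCoeff : ℂ) * ∏ ν ∈ Finset.range j, (v⁻¹ ^ N - (t ν : ℂ))) := by
    rw [hP, eval_mul, eval_pow, eval_X, eval_comp, eval_pow, eval_X]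
    congr 1
    conv_lhs => rw [hq]
    simp only [Polynomial.map_mul, map_C, Polynomial.map_prod, Polynomial.map_sub, map_X, eval_mul, eval_C,
      eval_prod, eval_sub, eval_X, coe_algebraMap]
  rw [hlead, heval, pow_add, pow_mul']
  have h2 : (∏ ν ∈ Finset.range j, (v⁻¹ ^ N - (t ν : ℂ))) * (v ^ N) ^ j =
      ∏ ν ∈ Finset.range j, (1 - (t ν : ℂ) * v ^ N) := by
    rw [← Finset.card_range j, ← Finset.prod_const, Finset.card_range, ← Finset.prod_mul_distrib]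
    refine Finset.prod_congr rfl fun ν _ => ?_
    rw [sub_mul, ← mul_pow, inv_mul_cancel₀ hv, one_pow]
  rw [← h2]
  generalize (∏ ν ∈ Finset.range j, (v⁻¹ ^ N - (t ν : ℂ))) = Q
  have h3 : v⁻¹ ^ k * v ^ k = 1 := by rw [← mul_pow, inv_mul_cancel₀ hv, one_pow]
  rw [div_eq_iff hlne]
  linear_combination ((q.leadingCoeff : ℂ) * Q * (v ^ N) ^ j) * h3

section
variable {N : ℕ} {φ : ℂ → ℂ} {c : ℝ} {p : ℕ → ℂ[X]} {k : ℕ}

theorem pot_gon (hN : N = 3 ∨ N = 4) {ψ : ℂ → ℂ} (h : Ext (closure (gon N)) φ ψ c) (hp : IsONP (gon N) p)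
    {q : ℕ → ℝ[X]} {t : ℕ → ℕ → ℝ} (hqd : ∀ j, (q j).natDegree = j)
    (hqp : ∀ j, p (j * N + k) = X ^ k * ((q j).map (algebraMap ℝ ℂ)).comp (X ^ N))
    (hqf : ∀ j, q j = C (q j).leadingCoeff * ∏ ν ∈ Finset.range j, (X - C (t j ν)))
    (ht : ∀ j ν, ν < j → t j ν ∈ Icc (0 : ℝ) 1) {v : ℂ} (hv : ‖v‖ < 1) :
    Tendsto (fun j : ℕ => (1 / (j : ℝ)) * ∑ ν ∈ Finset.range j, Real.log ‖1 - (t j ν : ℂ) * v ^ N‖) atTop
      (𝓝 (N * Real.log ‖(c : ℂ) * inv1 φ (1 / c) v‖)) := by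
  have hN0 : 0 < N := by omega
  have hcl := closure_gon hN
  apply h.pot_tendsto (G := gon N) (k := k) ?_ ?_ ?_ subset_closure isOpen_interior hp (gon_star hN) (by omega) ht ?_ hv
  · rw [hcl]; exact hull_compact hN0
  · rw [hcl]; exact hull_sub_ball hN0
  · exact subset_closure (zero_mem_gon hN)
  · intro j v hv
    have hne : p (j * N + k) ≠ 0 := by
      intro h0
      have := hp.orthonormal (j * N + k) (j * N + k)
      rw [h0] at this
      simp at this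
    exact reversed_fac (by omega) (hqp j) (hqd j) (hp.natDegree_eq _) (hqf j) hne hv

lemma log_real {x y : ℝ} (hx : x ∈ Icc (0 : ℝ) 1) (hy0 : 0 < y) (hy1 : y < 1) :
    Real.log ‖1 - (x : ℂ) * (y : ℂ)‖ = Real.log (1 - x * y) := by
  have h : (1 : ℂ) - (x : ℂ) * (y : ℂ) = ((1 - x * y : ℝ) : ℂ) := by push_cast; ring
  rw [h, Complex.norm_real, Real.norm_of_nonneg]
  nlinarith [hx.1, hx.2]

/-- The relation between the potential in `z` and in `v = 1/z`. -/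
lemma log_shift {x : ℝ} (hx : x ∈ Icc (0 : ℝ) 1) (hN : 1 ≤ N) {z : ℂ} (hz : 1 < ‖z‖) :
    Real.log ‖z ^ N - (x : ℂ)‖ = N * Real.log ‖z‖ + Real.log ‖1 - (x : ℂ) * z⁻¹ ^ N‖ := by
  have hz0 : z ≠ 0 := by rintro rfl; rw [norm_zero] at hz; linarith
  have h1 : z ^ N - (x : ℂ) = z ^ N * (1 - (x : ℂ) * z⁻¹ ^ N) := by
    rw [mul_sub, mul_one, mul_left_comm, ← mul_pow, mul_inv_cancel₀ hz0, one_pow, mul_one]
  have h2 : (1 : ℂ) - (x : ℂ) * z⁻¹ ^ N ≠ 0 := by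
    apply slitPlane_ne_zero
    apply one_sub_slit hx hN
    rw [norm_inv]
    exact inv_lt_one_of_one_lt₀ hz
  rw [h1, norm_mul, Real.log_mul (norm_ne_zero_iff.mpr (pow_ne_zero _ hz0)) (norm_ne_zero_iff.mpr h2),
    norm_pow, Real.log_pow]

/-- the defining property of the limit measure -/
def MuProp (N : ℕ) (φ : ℂ → ℂ) (c : ℝ) (μ : Measure ℝ) : Prop :=
  ∀ z : ℂ, 1 < ‖z‖ → ∫ x, Real.log ‖z ^ N - (x : ℂ)‖ ∂μ = N * Real.log ‖φ z‖ + N * Real.log c

lemma pot_cont (hN : 1 ≤ N) {v : ℂ} (hv : ‖v‖ < 1) :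
    ContinuousOn (fun x : ℝ => Real.log ‖1 - (x : ℂ) * v ^ N‖) (Icc 0 1) := by
  apply ContinuousOn.log
  · fun_prop
  · intro x hx
    exact norm_ne_zero_iff.mpr (slitPlane_ne_zero (one_sub_slit hx hN hv))

lemma muProp_iff {μ : Measure ℝ} (hμ : UnitProb μ) (hN : 1 ≤ N) {ψ : ℂ → ℂ} {K : Set ℂ} (h : Ext K φ ψ c)
    (hK : K ⊆ closedBall 0 1) :
    MuProp N φ c μ ↔ ∀ v : ℂ, ‖v‖ < 1 → v ≠ 0 → ∫ x, Real.log ‖1 - (x : ℂ) * v ^ N‖ ∂μ =
      N * Real.log ‖(c : ℂ) * inv1 φ (1 / c) v‖ := by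
  have := hμ.prob
  have key : ∀ z : ℂ, 1 < ‖z‖ → (∫ x, Real.log ‖z ^ N - (x : ℂ)‖ ∂μ = N * Real.log ‖φ z‖ + N * Real.log c ↔
      ∫ x, Real.log ‖1 - (x : ℂ) * z⁻¹ ^ N‖ ∂μ = N * Real.log ‖(c : ℂ) * inv1 φ (1 / c) z⁻¹‖) := by
    intro z hz
    have hz0 : z ≠ 0 := by rintro rfl; rw [norm_zero] at hz; linarith
    have hzi : ‖z⁻¹‖ < 1 := by rw [norm_inv]; exact inv_lt_one_of_one_lt₀ hz
    have e1 : ∫ x, Real.log ‖z ^ N - (x : ℂ)‖ ∂μ =
        N * Real.log ‖z‖ + ∫ x, Real.log ‖1 - (x : ℂ) * z⁻¹ ^ N‖ ∂μ := by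
      have : ∫ x, Real.log ‖z ^ N - (x : ℂ)‖ ∂μ =
          ∫ x, (N * Real.log ‖z‖ + Real.log ‖1 - (x : ℂ) * z⁻¹ ^ N‖) ∂μ := by
        apply integral_congr_ae
        filter_upwards [hμ.ae] with x hx using log_shift hx hN hz
      rw [this, integral_add (integrable_const _) (hμ.integrable (pot_cont hN hzi))]
      simp
    have hφ : φ z ≠ 0 := by
      intro h0
      have := h.mφ z (fun hh => by
        have := hK hh
        rw [mem_closedBall_zero_iff] at this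
        linarith)
      rw [h0, norm_zero] at this
      linarith
    have e2 : N * Real.log ‖(c : ℂ) * inv1 φ (1 / c) z⁻¹‖ =
        N * Real.log ‖φ z‖ + N * Real.log c - N * Real.log ‖z‖ := by
      rw [inv1_ne _ _ (inv_ne_zero hz0), inv_inv, norm_mul, norm_mul, norm_inv, Complex.norm_real,
        Real.norm_of_nonneg h.c_pos.le, Real.log_mul h.c_pos.ne' (by
          have := norm_pos_iff.mpr hφ
          have := norm_pos_iff.mpr hz0
          positivity), Real.log_mul (by simpa using hz0) (norm_ne_zero_iff.mpr hφ), Real.log_inv]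
      ring
    rw [e1, e2]
    constructor <;> intro hh <;> linarith
  constructor
  · intro hm v hv hv0
    have h1 : 1 < ‖v⁻¹‖ := one_lt_inv hv0 hv
    have := (key v⁻¹ h1).mp (hm _ h1)
    rwa [inv_inv] at this
  · intro hm z hz
    have hz0 : z ≠ 0 := by rintro rfl; rw [norm_zero] at hz; linarith
    exact (key z hz).mpr (hm z⁻¹ (by rw [norm_inv]; exact inv_lt_one_of_one_lt₀ hz) (inv_ne_zero hz0))

/-- the real point with `N`-th power `y` -/
lemma exists_root (hN : 1 ≤ N) {y : ℝ} (hy0 : 0 < y) (hy1 : y < 1) :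
    ∃ v : ℂ, ‖v‖ < 1 ∧ v ≠ 0 ∧ v ^ N = (y : ℂ) := by
  refine ⟨((y ^ ((1 : ℝ) / N) : ℝ) : ℂ), ?_, ?_, ?_⟩
  · rw [Complex.norm_real, Real.norm_of_nonneg (by positivity)]
    exact Real.rpow_lt_one hy0.le hy1 (by positivity)
  · have : 0 < y ^ ((1 : ℝ) / N) := by positivity
    exact_mod_cast this.ne'
  · rw [← Complex.ofReal_pow, ← Real.rpow_natCast, ← Real.rpow_mul hy0.le, one_div,
      inv_mul_cancel₀ (by positivity), Real.rpow_one]

theorem mu_unique {μ ν : Measure ℝ} (hμ : UnitProb μ) (hν : UnitProb ν) (hN : 1 ≤ N) {ψ : ℂ → ℂ} {K : Set ℂ}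
    (h : Ext K φ ψ c) (hK : K ⊆ closedBall 0 1) (h1 : MuProp N φ c μ) (h2 : MuProp N φ c ν) : μ = ν := by
  rw [muProp_iff hμ hN h hK] at h1
  rw [muProp_iff hν hN h hK] at h2
  apply unitProb_unique hμ hν
  intro y hy0 hy1
  obtain ⟨v, hv, hv0, hvy⟩ := exists_root hN hy0 hy1
  have e : ∀ ρ : Measure ℝ, UnitProb ρ → ∫ x, Real.log ‖1 - (x : ℂ) * v ^ N‖ ∂ρ = ∫ x, Real.log (1 - x * y) ∂ρ := by
    intro ρ hρ
    apply integral_congr_ae
    filter_upwards [hρ.ae] with x hx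
    rw [hvy, log_real hx hy0 hy1]
  rw [← e μ hμ, ← e ν hν, h1 v hv hv0, h2 v hv hv0]

theorem mu_exists (hN : N = 3 ∨ N = 4) {ψ : ℂ → ℂ} (h : Ext (closure (gon N)) φ ψ c) (hp : IsONP (gon N) p)
    {q : ℕ → ℝ[X]} {t : ℕ → ℕ → ℝ} (hqd : ∀ j, (q j).natDegree = j)
    (hqp : ∀ j, p (j * N + k) = X ^ k * ((q j).map (algebraMap ℝ ℂ)).comp (X ^ N))
    (hqf : ∀ j, q j = C (q j).leadingCoeff * ∏ ν ∈ Finset.range j, (X - C (t j ν)))
    (ht : ∀ j ν, ν < j → t j ν ∈ Icc (0 : ℝ) 1) : ∃ μ : Measure ℝ, UnitProb μ ∧ MuProp N φ c μ := by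
  have hN0 : 0 < N := by omega
  have hK : closure (gon N) ⊆ closedBall 0 1 := by rw [closure_gon hN]; exact hull_sub_ball hN0
  obtain ⟨μ, hμ, hL⟩ := exists_limit (μs := fun j => cm (j + 1) (t (j + 1)))
    (fun j => cm_unitProb (by omega) (fun ν hν => ht _ ν hν))
  refine ⟨μ, hμ, ?_⟩
  rw [muProp_iff hμ (by omega) h hK]
  intro v hv hv0
  apply hL _ (pot_cont (by omega) hv)
  have h1 := (pot_gon hN h hp hqd hqp hqf ht hv).comp (tendsto_add_atTop_nat 1)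
  refine h1.congr fun j => ?_
  rw [cm_integral]
  rfl

theorem mu_limit (hN : N = 3 ∨ N = 4) {ψ : ℂ → ℂ} (h : Ext (closure (gon N)) φ ψ c) (hp : IsONP (gon N) p)
    {q : ℕ → ℝ[X]} {t : ℕ → ℕ → ℝ} (hqd : ∀ j, (q j).natDegree = j)
    (hqp : ∀ j, p (j * N + k) = X ^ k * ((q j).map (algebraMap ℝ ℂ)).comp (X ^ N))
    (hqf : ∀ j, q j = C (q j).leadingCoeff * ∏ ν ∈ Finset.range j, (X - C (t j ν)))
    (ht : ∀ j ν, ν < j → t j ν ∈ Icc (0 : ℝ) 1) {μ : Measure ℝ} (hμ : UnitProb μ) (hm : MuProp N φ c μ)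
    {f : ℝ → ℝ} (hf : ContinuousOn f (Icc 0 1)) :
    Tendsto (fun j : ℕ => (1 / (j : ℝ)) * ∑ ν ∈ Finset.range j, f (t j ν)) atTop (𝓝 (∫ x, f x ∂μ)) := by
  have hN0 : 0 < N := by omega
  have hK : closure (gon N) ⊆ closedBall 0 1 := by rw [closure_gon hN]; exact hull_sub_ball hN0
  rw [muProp_iff hμ (by omega) h hK] at hm
  rw [← tendsto_add_atTop_iff_nat 1]
  have key := weak_tendsto (μs := fun j => cm (j + 1) (t (j + 1))) (μ := μ)
    (fun j => cm_unitProb (by omega) (fun ν hν => ht _ ν hν)) hμ ?_ hf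
  · refine key.congr fun j => ?_
    rw [cm_integral]
  · intro y hy0 hy1
    obtain ⟨v, hv, hv0, hvy⟩ := exists_root (N := N) (by omega) hy0 hy1
    have h1 := (pot_gon hN h hp hqd hqp hqf ht hv).comp (tendsto_add_atTop_nat 1)
    have e : ∫ x, Real.log ‖1 - (x : ℂ) * v ^ N‖ ∂μ = ∫ x, Real.log (1 - x * y) ∂μ := by
      apply integral_congr_ae
      filter_upwards [hμ.ae] with x hx
      rw [hvy, log_real hx hy0 hy1]
    rw [← e, hm v hv hv0]
    refine h1.congr fun j => ?_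
    rw [cm_integral]
    simp only [Function.comp_apply]
    congr 1
    refine Finset.sum_congr rfl fun ν hν => ?_
    rw [hvy, log_real (ht _ ν (Finset.mem_range.mp hν)) hy0 hy1]

end

end Pool.Agent.H203
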